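import Pool.Agent.Helper65.Clique.Cod

/-!
# The counting inequalities for a clique of Maker
-/

set_option autoImplicit false

namespace Pool.Agent.Helper65.CliqueGame

open scoped Classical

variable {n : ℕ}

/-- `C` is comparable with all the sets of added vertices -/
def Comp (A C : Finset (Fin n)) : List (Finset (Sym2 (Fin n)) × Bool) → Prop
  | [] => True
  | (_, _) :: l => (cod A l ⊆ C ∨ C ⊆ cod A l) ∧ Comp A C l

theorem cod_mono_cons (A : Finset (Fin n)) (a : Finset (Sym2 (Fin n)) × Bool)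
    (l : List (Finset (Sym2 (Fin n)) × Bool)) : cod A l ⊆ cod A (a :: l) := by
  obtain ⟨R, b⟩ := a
  cases b with
  | true => exact Finset.subset_union_left
  | false => exact Finset.Subset.refl _

theorem comp_of_subset (A C : Finset (Fin n)) (l : List (Finset (Sym2 (Fin n)) × Bool))
    (h : cod A l ⊆ C) : Comp A C l := by
  induction l with
  | nil => trivial
  | cons a l ih =>
    have h' := (cod_mono_cons A a l).trans h
    exact ⟨Or.inl h', ih h'⟩

theorem exists_comp (A : Finset (Fin n)) (l : List (Finset (Sym2 (Fin n)) × Bool)) (s : ℕ)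
    (hs : s ≤ A.card) : ∃ C, C ⊆ A ∧ C.card = s ∧ Comp A C l ∧ (cod A l ⊆ C ∨ C ⊆ cod A l) := by
  induction l with
  | nil =>
    obtain ⟨C, hC, hc⟩ := Finset.exists_subset_card_eq hs
    exact ⟨C, hC, hc, trivial, Or.inl (by simp [cod])⟩
  | cons a l ih =>
    have hmono := cod_mono_cons A a l
    have hA := cod_subset A (a :: l)
    rcases le_or_gt s (cod A l).card with h | h
    · obtain ⟨C, hC, hc, hcomp, hor⟩ := ih
      have hCsub : C ⊆ cod A l := by
        rcases hor with h1 | h1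
        · exact (Finset.eq_of_subset_of_card_le h1 (by rw [hc]; exact h)).symm.subset
        · exact h1
      exact ⟨C, hC, hc, ⟨Or.inr hCsub, hcomp⟩, Or.inr (hCsub.trans hmono)⟩
    · rcases le_or_gt s (cod A (a :: l)).card with h2 | h2
      · obtain ⟨C, hC1, hC2, hc⟩ := Finset.exists_subsuperset_card_eq hmono h.le h2
        exact ⟨C, hC2.trans hA, hc, ⟨Or.inl hC1, comp_of_subset A C l hC1⟩, Or.inr hC2⟩
      · obtain ⟨C, hC1, hC2, hc⟩ := Finset.exists_subsuperset_card_eq hA h2.le hs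
        exact ⟨C, hC2, hc, ⟨Or.inl (hmono.trans hC1), comp_of_subset A C l (hmono.trans hC1)⟩,
          Or.inl hC1⟩

/-- the number of the counted edges -/
noncomputable def nc (A W : Finset (Fin n)) : List (Finset (Sym2 (Fin n)) × Bool) → ℕ
  | [] => 0
  | (R, _) :: l => nc A W l + (R ∩ FF W (cod A l)).card

theorem nc_cons (A W : Finset (Fin n)) (R : Finset (Sym2 (Fin n))) (b : Bool)
    (l : List (Finset (Sym2 (Fin n)) × Bool)) :
    nc A W ((R, b) :: l) = nc A W l + (R ∩ FF W (cod A l)).card := rfl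

theorem mem_FF {W U : Finset (Fin n)} {e : Sym2 (Fin n)} :
    e ∈ FF W U ↔ ¬ e.IsDiag ∧ (∀ v ∈ e, v ∈ W ∪ U) ∧ ∃ v ∈ e, v ∈ W := by
  simp [FF, edges]

theorem cover (A C U : Finset (Fin n)) (h : U ⊆ C ∨ C ⊆ U) (e : Sym2 (Fin n))
    (he : e ∈ inn A \ inn C) : e ∈ FF (A \ C) U ∨ e ∈ inn (A \ U) := by
  rw [Finset.mem_sdiff, mem_inn, mem_inn] at he
  obtain ⟨⟨hd, hA⟩, hC⟩ := he
  have hw : ∃ w ∈ e, w ∉ C := by
    by_contra hcon
    push Not at hcon
    exact hC ⟨hd, hcon⟩
  obtain ⟨w, hwe, hwC⟩ := hw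
  by_cases hall : ∀ v ∈ e, v ∈ (A \ C) ∪ U
  · left
    rw [mem_FF]
    exact ⟨hd, hall, w, hwe, Finset.mem_sdiff.2 ⟨hA w hwe, hwC⟩⟩
  · right
    push Not at hall
    obtain ⟨u, hue, hu⟩ := hall
    rw [Finset.mem_union, Finset.mem_sdiff, not_or] at hu
    obtain ⟨hu1, hu2⟩ := hu
    have huC : u ∈ C := by
      by_contra hcon
      exact hu1 ⟨hA u hue, hcon⟩
    have hUC : U ⊆ C := by
      rcases h with h | h
      · exact h
      · exact absurd (h huC) hu2
    have huw : u ≠ w := fun h => hwC (h ▸ huC)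
    have heq : e = s(u, w) := (Sym2.mem_and_mem_iff huw).1 ⟨hue, hwe⟩
    rw [mem_inn]
    refine ⟨hd, fun v hv => ?_⟩
    rw [Finset.mem_sdiff]
    refine ⟨hA v hv, ?_⟩
    rw [heq, Sym2.mem_iff] at hv
    rcases hv with rfl | rfl
    · exact hu2
    · exact fun h => hwC (hUC h)

theorem count (A C : Finset (Fin n)) (l : List (Finset (Sym2 (Fin n)) × Bool))
    (hcomp : Comp A C l) :
    (uni (l.map Prod.fst) ∩ (inn A \ inn C)).card ≤ nc A (A \ C) l + bad A l := by
  induction l with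
  | nil => simp
  | cons a l ih =>
    obtain ⟨R, b⟩ := a
    have ih' := ih hcomp.2
    rw [List.map_cons, uni_cons, nc_cons, bad_cons, Finset.union_inter_distrib_right]
    have h1 : (R ∩ (inn A \ inn C)).card ≤
        (R ∩ FF (A \ C) (cod A l)).card + (R ∩ inn (A \ cod A l)).card := by
      refine le_trans (Finset.card_le_card ?_) (Finset.card_union_le _ _)
      intro e he
      rw [Finset.mem_inter] at he
      rcases cover A C (cod A l) hcomp.1 e he.2 with h | h
      · exact Finset.mem_union_left _ (Finset.mem_inter.2 ⟨he.1, h⟩)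
      · exact Finset.mem_union_right _ (Finset.mem_inter.2 ⟨he.1, h⟩)
    have h2 := Finset.card_union_le (R ∩ (inn A \ inn C))
      (uni (l.map Prod.fst) ∩ (inn A \ inn C))
    show (R ∩ (inn A \ inn C) ∪ uni (l.map Prod.fst) ∩ (inn A \ inn C)).card ≤ _
    omega

theorem rpow_le_one_add {m h : ℕ} (hm : 1 ≤ m) (hh : h ≤ m) :
    ((m : ℝ) + 1) ^ ((h : ℝ) / m) ≤ 1 + h := by
  rcases Nat.eq_zero_or_pos h with rfl | hpos
  · simp
  have hm0 : (0 : ℝ) < m := by exact_mod_cast hm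
  have hh0 : (0 : ℝ) < h := by exact_mod_cast hpos
  have h1 : (1 : ℝ) ≤ m / h := by
    rw [le_div_iff₀ hh0, one_mul]
    exact_mod_cast hh
  have h2 := one_add_mul_self_le_rpow_one_add (s := (h : ℝ)) (by linarith) h1
  have h3 : 1 + (m : ℝ) / h * h = m + 1 := by
    field_simp
    ring
  rw [h3] at h2
  calc ((m : ℝ) + 1) ^ ((h : ℝ) / m) ≤ ((1 + (h : ℝ)) ^ ((m : ℝ) / h)) ^ ((h : ℝ) / m) :=
        Real.rpow_le_rpow (by positivity) h2 (by positivity)
    _ = (1 + (h : ℝ)) ^ (((m : ℝ) / h) * ((h : ℝ) / m)) := by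
        rw [Real.rpow_mul (by positivity)]
    _ = 1 + h := by
        rw [show ((m : ℝ) / h) * ((h : ℝ) / m) = 1 by field_simp, Real.rpow_one]

theorem wt_lower {x : ℝ} (hx : 0 ≤ x) (A W : Finset (Fin n)) {m : ℕ} (hm : 1 ≤ m)
    (l : List (Finset (Sym2 (Fin n)) × Bool)) (hR : ∀ R ∈ l.map Prod.fst, R.card ≤ m) :
    x ^ cnt l * ((m : ℝ) + 1) ^ ((nc A W l : ℝ) / m) ≤ wt x A W l := by
  induction l with
  | nil => simp [cnt, nc, wt]
  | cons a l ih =>
    obtain ⟨R, b⟩ := a
    have ih' := ih (fun R' hR' => hR R' (by rw [List.map_cons]; exact List.mem_cons_of_mem _ hR'))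
    have hRc : R.card ≤ m := hR R (by rw [List.map_cons]; exact List.mem_cons_self)
    set h := (R ∩ FF W (cod A l)).card with hh
    have hhm : h ≤ m := (Finset.card_le_card Finset.inter_subset_left).trans hRc
    have h1 := rpow_le_one_add hm hhm
    have h2 : ((m : ℝ) + 1) ^ (((nc A W l + h : ℕ) : ℝ) / m) =
        ((m : ℝ) + 1) ^ ((nc A W l : ℝ) / m) * ((m : ℝ) + 1) ^ ((h : ℝ) / m) := by
      rw [← Real.rpow_add (by positivity)]
      congr 1
      push_cast
      ring
    have h3 : x ^ cnt l * (((m : ℝ) + 1) ^ ((nc A W l : ℝ) / m) *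
        ((m : ℝ) + 1) ^ ((h : ℝ) / m)) ≤ wt x A W l * (1 + h) := by
      rw [← mul_assoc]
      exact mul_le_mul ih' h1 (by positivity) (wt_nonneg hx A W l)
    cases b with
    | true =>
      rw [cnt_true, nc_cons, ← hh, h2, pow_succ]
      calc x ^ cnt l * x * (((m : ℝ) + 1) ^ ((nc A W l : ℝ) / m) *
            ((m : ℝ) + 1) ^ ((h : ℝ) / m)) = (x ^ cnt l *
            (((m : ℝ) + 1) ^ ((nc A W l : ℝ) / m) * ((m : ℝ) + 1) ^ ((h : ℝ) / m))) * x := by ring
        _ ≤ (wt x A W l * (1 + h)) * x := mul_le_mul_of_nonneg_right h3 hx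
        _ = _ := by simp [wt, hh]
    | false =>
      rw [cnt_false, nc_cons, ← hh, h2]
      refine h3.trans (le_of_eq ?_)
      simp [wt, hh]

theorem wt_lower_base {x : ℝ} (hx : 0 ≤ x) (A : Finset (Fin n))
    (Rs : List (Finset (Sym2 (Fin n)))) :
    (2 : ℝ) ^ nr A Rs ≤ wt x A A (Rs.map fun R => (R, false)) ∧
      cod A (Rs.map fun R => (R, false)) = ∅ := by
  induction Rs with
  | nil => simp [nr, wt, cod]
  | cons R Rs ih =>
    obtain ⟨ih1, ih2⟩ := ih
    rw [List.map_cons, cod_false]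
    refine ⟨?_, ih2⟩
    rw [nr_cons]
    have h1 : wt x A A ((R, false) :: Rs.map fun R => (R, false)) =
        wt x A A (Rs.map fun R => (R, false)) * (1 + ((R ∩ FF A ∅).card : ℝ)) := by
      simp [wt, ih2]
    rw [h1, pow_add]
    refine mul_le_mul ih1 ?_ (by positivity) (wt_nonneg hx _ _ _)
    split_ifs with h
    · simp
    · rw [pow_one]
      have h2 : 1 ≤ (R ∩ FF A ∅).card := by
        rw [Nat.one_le_iff_ne_zero, Finset.card_ne_zero]
        obtain ⟨e, he⟩ := Finset.nonempty_iff_ne_empty.2 h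
        rw [Finset.mem_inter, mem_inn] at he
        refine ⟨e, Finset.mem_inter.2 ⟨he.1, mem_FF.2 ⟨he.2.1, ?_, ?_⟩⟩⟩
        · intro v hv
          rw [Finset.union_empty]
          exact he.2.2 v hv
        · obtain ⟨v, hv⟩ : ∃ v, v ∈ e := by
            induction e with
            | _ a b => exact ⟨a, Sym2.mem_mk_left a b⟩
          exact ⟨v, hv, he.2.2 v hv⟩
      have h3 : (1 : ℝ) ≤ ((R ∩ FF A ∅).card : ℝ) := by exact_mod_cast h2
      linarith

theorem meas_le_pot {x : ℝ} (hx : 0 ≤ x) (Rs : List (Finset (Sym2 (Fin n))))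
    (B : Finset (Sym2 (Fin n))) (W U : Finset (Fin n)) (h : Disjoint (FF W U) B) :
    meas x Rs W U ≤ pot x Rs B := by
  unfold pot Phi
  have h1 : ∀ s ∈ (Finset.univ : Finset (Finset (Fin n) × Finset (Fin n))),
      0 ≤ (if Disjoint (FF s.1 s.2) B then meas x Rs s.1 s.2 else 0) := by
    intro s _
    split_ifs
    · exact meas_nonneg hx _ _ _
    · exact le_rfl
  refine le_trans ?_ (Finset.single_le_sum h1 (Finset.mem_univ (W, U)))
  simp only
  rw [if_pos h]

/-- the counting inequalities for a clique of Maker, when the potential is at most `Z` -/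
theorem clique_ineq {x Z : ℝ} (hx : 0 ≤ x) {m q : ℕ} (hm : 1 ≤ m) (hn : 1 ≤ n)
    (Rs : List (Finset (Sym2 (Fin n)))) (B : Finset (Sym2 (Fin n)))
    (hR : ∀ R ∈ Rs, R.card ≤ m) (hpw : Rs.Pairwise Disjoint) (hB : Disjoint (uni Rs) B)
    (hcl : HasClique q (uni Rs)) (hZ : pot x Rs B ≤ Z) (D g t : ℕ) (hD : 1 ≤ D) (ht : t ≤ q) :
    ∃ k N b c : ℕ, k * (g * D) ≤ q ^ 2 ∧ (2 : ℝ) ^ N ≤ Z * (n : ℝ) ^ q ∧
      x ^ k * ((m : ℝ) + 1) ^ ((c : ℝ) / m) ≤ Z * (n : ℝ) ^ t ∧
      b ≤ q * (D + m) + N * g ^ 2 + m * k ∧ q.choose 2 ≤ c + b + (q - t).choose 2 := by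
  obtain ⟨A, hA, hAcl⟩ := hcl
  have hn0 : (0 : ℝ) < n := by exact_mod_cast hn
  have hinn : inn A ⊆ uni Rs := by
    intro e he
    rw [mem_inn] at he
    induction e with
    | _ a b =>
      rw [Sym2.mk_isDiag_iff] at he
      exact hAcl a (he.2 a (Sym2.mem_mk_left a b)) b (he.2 b (Sym2.mem_mk_right a b)) he.1
  have hFF : ∀ W U : Finset (Fin n), W ⊆ A → U ⊆ A → Disjoint (FF W U) B := by
    intro W U hW hU
    refine Finset.disjoint_of_subset_left ?_ hB
    intro e he
    rw [mem_FF] at he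
    exact hinn (mem_inn.2 ⟨he.1, fun v hv => (Finset.union_subset hW hU) (he.2.1 v hv)⟩)
  have hpow : ∀ (W U : Finset (Fin n)) (w : ℝ), W ⊆ A → U ⊆ A →
      ((n : ℝ)⁻¹) ^ W.card * w ≤ meas x Rs W U → w ≤ Z * (n : ℝ) ^ W.card := by
    intro W U w hW hU h
    have h1 : ((n : ℝ)⁻¹) ^ W.card * w ≤ Z :=
      h.trans ((meas_le_pot hx Rs B W U (hFF W U hW hU)).trans hZ)
    have h2 : (0 : ℝ) < (n : ℝ) ^ W.card := by positivity
    have h3 : w = (((n : ℝ)⁻¹) ^ W.card * w) * (n : ℝ) ^ W.card := by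
      rw [inv_pow]
      field_simp
    rw [h3]
    exact mul_le_mul_of_nonneg_right h1 h2.le
  obtain ⟨l, Bd, h1, h2, h3, h4, h5⟩ := select A (m := m) (D := D) (g := g) hD Rs hR hpw
  obtain ⟨C, hC, hCc, hcomp, -⟩ := exists_comp A l (q - t) (by rw [hA]; exact Nat.sub_le _ _)
  have hBd : 2 * Bd.card ≤ q ^ 2 := by
    have h6 : Bd.card ≤ q.choose 2 := by
      rw [← hA, ← card_inn]
      exact Finset.card_le_card (h2.trans Finset.inter_subset_right)
    have h7 : q.choose 2 * 2 = q * (q - 1) := by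
      rw [Nat.choose_two_right]
      exact Nat.div_mul_cancel (Nat.even_mul_pred_self q).two_dvd
    have h8 : q * (q - 1) ≤ q ^ 2 := by
      rw [sq]; exact Nat.mul_le_mul_left _ (Nat.sub_le _ _)
    omega
  refine ⟨cnt l, nr A Rs, bad A l, nc A (A \ C) l, ?_, ?_, ?_, ?_, ?_⟩
  · refine h3.trans ?_
    refine (Finset.sum_le_sum_of_subset (cod_subset A l)).trans ?_
    exact (sum_deg_le A Bd).trans hBd
  · obtain ⟨e1, e2⟩ := wt_lower_base hx A Rs
    have h6 := meas_lower hx A A (Rs.map fun R => (R, false))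
    have h7 : (Rs.map fun R => (R, false)).map Prod.fst = Rs := by
      rw [List.map_map]
      exact List.map_id Rs
    rw [h7, e2] at h6
    have h8 := hpow A ∅ _ (Finset.Subset.refl _) (Finset.empty_subset _) h6
    rw [hA] at h8
    exact e1.trans h8
  · have h6 := meas_lower hx A (A \ C) l
    rw [h1] at h6
    have h7 := hpow (A \ C) (cod A l) _ Finset.sdiff_subset (cod_subset A l) h6
    have h8 : (A \ C).card = t := by
      rw [Finset.card_sdiff_of_subset hC, hA, hCc]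
      omega
    rw [h8] at h7
    exact (wt_lower hx A (A \ C) hm l (by rw [h1]; exact hR)).trans h7
  · have h6 : ∑ v ∈ A, min (deg Bd v) (D + m) ≤ q * (D + m) := by
      rw [← hA, ← smul_eq_mul]
      exact Finset.sum_le_card_nsmul _ _ _ fun v _ => min_le_right _ _
    omega
  · have h6 := count A C l hcomp
    rw [h1] at h6
    have h7 : uni Rs ∩ (inn A \ inn C) = inn A \ inn C :=
      Finset.inter_eq_right.2 (Finset.sdiff_subset.trans hinn)
    rw [h7, Finset.card_sdiff_of_subset (inn_mono hC), card_inn, card_inn, hA, hCc] at h6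
    omega

end Pool.Agent.Helper65.CliqueGame
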