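import Pool.Agent.Helper65.Clique.Pot

/-!
# The choice of the rounds in which vertices are added
-/

set_option autoImplicit false

namespace Pool.Agent.Helper65.CliqueGame

open scoped Classical

variable {n : ℕ}

/-- the edges inside `X` -/
noncomputable def inn (X : Finset (Fin n)) : Finset (Sym2 (Fin n)) :=
  (edges n).filter (fun e => ∀ v ∈ e, v ∈ X)

theorem mem_inn {X : Finset (Fin n)} {e : Sym2 (Fin n)} :
    e ∈ inn X ↔ ¬ e.IsDiag ∧ ∀ v ∈ e, v ∈ X := by
  simp [inn, edges]

theorem inn_eq (X : Finset (Fin n)) : inn X = X.offDiag.image Sym2.mk.uncurry := by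
  ext e
  induction e with
  | _ a b =>
    simp only [mem_inn, Sym2.mk_isDiag_iff, Finset.mem_image, Finset.mem_offDiag, Sym2.mem_iff]
    constructor
    · rintro ⟨h1, h2⟩
      exact ⟨(a, b), ⟨h2 a (Or.inl rfl), h2 b (Or.inr rfl), h1⟩, rfl⟩
    · rintro ⟨⟨c, d⟩, ⟨h1, h2, h3⟩, h4⟩
      have h5 : s(c, d) = s(a, b) := h4
      rw [Sym2.eq_iff] at h5
      simp only at h1 h2 h3
      rcases h5 with ⟨rfl, rfl⟩ | ⟨rfl, rfl⟩
      · refine ⟨h3, ?_⟩
        rintro v (rfl | rfl)
        · exact h1
        · exact h2
      · refine ⟨fun h => h3 h.symm, ?_⟩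
        rintro v (rfl | rfl)
        · exact h2
        · exact h1

theorem card_inn (X : Finset (Fin n)) : (inn X).card = X.card.choose 2 := by
  rw [inn_eq, Sym2.card_image_offDiag]

theorem inn_mono {X Y : Finset (Fin n)} (h : X ⊆ Y) : inn X ⊆ inn Y := by
  intro e he
  rw [mem_inn] at he ⊢
  exact ⟨he.1, fun v hv => h (he.2 v hv)⟩

/-- the degree of a vertex in a set of edges -/
noncomputable def deg (Bd : Finset (Sym2 (Fin n))) (v : Fin n) : ℕ := (Bd.filter (fun e => v ∈ e)).card

theorem deg_union {H Bd : Finset (Sym2 (Fin n))} (h : Disjoint Bd H) (v : Fin n) :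
    deg (Bd ∪ H) v = deg Bd v + deg H v := by
  unfold deg
  rw [Finset.filter_union, Finset.card_union_of_disjoint]
  exact Finset.disjoint_filter_filter h

theorem deg_le (Bd : Finset (Sym2 (Fin n))) (v : Fin n) : deg Bd v ≤ Bd.card :=
  Finset.card_filter_le _ _

theorem sum_deg_le (A : Finset (Fin n)) (Bd : Finset (Sym2 (Fin n))) :
    ∑ v ∈ A, deg Bd v ≤ 2 * Bd.card := by
  unfold deg
  have h1 : ∑ v ∈ A, (Bd.filter (fun e => v ∈ e)).card =
      ∑ e ∈ Bd, (A.filter (fun v => v ∈ e)).card := by
    simp only [Finset.card_filter]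
    exact Finset.sum_comm
  rw [h1, mul_comm, ← smul_eq_mul]
  refine Finset.sum_le_card_nsmul _ _ _ fun e _ => ?_
  have h2 : A.filter (fun v => v ∈ e) ⊆ e.toFinset := by
    intro v hv
    exact Sym2.mem_toFinset.2 (Finset.mem_filter.1 hv).2
  refine (Finset.card_le_card h2).trans ?_
  induction e with
  | _ a b =>
    rw [Sym2.toFinset_mk_eq]
    exact Finset.card_le_two

/-- number of edges claimed inside the set of the not yet added vertices -/
noncomputable def bad (A : Finset (Fin n)) : List (Finset (Sym2 (Fin n)) × Bool) → ℕ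
  | [] => 0
  | (R, _) :: l => bad A l + (R ∩ inn (A \ cod A l)).card

/-- number of chosen rounds -/
def cnt : List (Finset (Sym2 (Fin n)) × Bool) → ℕ
  | [] => 0
  | (_, b) :: l => cnt l + (if b then 1 else 0)

/-- number of rounds touching `A` -/
noncomputable def nr (A : Finset (Fin n)) : List (Finset (Sym2 (Fin n))) → ℕ
  | [] => 0
  | R :: Rs => nr A Rs + (if R ∩ inn A = ∅ then 0 else 1)

theorem cnt_true (R : Finset (Sym2 (Fin n))) (l : List (Finset (Sym2 (Fin n)) × Bool)) :
    cnt ((R, true) :: l) = cnt l + 1 := rfl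

theorem cnt_false (R : Finset (Sym2 (Fin n))) (l : List (Finset (Sym2 (Fin n)) × Bool)) :
    cnt ((R, false) :: l) = cnt l := rfl

theorem cod_true (A : Finset (Fin n)) (R : Finset (Sym2 (Fin n)))
    (l : List (Finset (Sym2 (Fin n)) × Bool)) :
    cod A ((R, true) :: l) = cod A l ∪ (verts R ∩ A) := rfl

theorem cod_false (A : Finset (Fin n)) (R : Finset (Sym2 (Fin n)))
    (l : List (Finset (Sym2 (Fin n)) × Bool)) :
    cod A ((R, false) :: l) = cod A l := rfl

theorem bad_cons (A : Finset (Fin n)) (R : Finset (Sym2 (Fin n))) (b : Bool)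
    (l : List (Finset (Sym2 (Fin n)) × Bool)) :
    bad A ((R, b) :: l) = bad A l + (R ∩ inn (A \ cod A l)).card := rfl

theorem nr_cons (A : Finset (Fin n)) (R : Finset (Sym2 (Fin n)))
    (Rs : List (Finset (Sym2 (Fin n)))) :
    nr A (R :: Rs) = nr A Rs + (if R ∩ inn A = ∅ then 0 else 1) := rfl

theorem cod_subset (A : Finset (Fin n)) (l : List (Finset (Sym2 (Fin n)) × Bool)) :
    cod A l ⊆ A := by
  induction l with
  | nil => simp [cod]
  | cons a l ih =>
    obtain ⟨R, b⟩ := a
    cases b with
    | true => exact Finset.union_subset ih Finset.inter_subset_right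
    | false => exact ih

/-- the selection process -/
theorem select (A : Finset (Fin n)) {m D g : ℕ} (hD : 1 ≤ D)
    (Rs : List (Finset (Sym2 (Fin n)))) (hR : ∀ R ∈ Rs, R.card ≤ m) (hpw : Rs.Pairwise Disjoint) :
    ∃ (l : List (Finset (Sym2 (Fin n)) × Bool)) (Bd : Finset (Sym2 (Fin n))),
      l.map Prod.fst = Rs ∧ Bd ⊆ uni Rs ∩ inn A ∧
      cnt l * (g * D) ≤ ∑ v ∈ cod A l, deg Bd v ∧
      bad A l ≤ Bd.card + m * cnt l ∧
      Bd.card ≤ ∑ v ∈ A, min (deg Bd v) (D + m) + nr A Rs * g ^ 2 := by
  induction Rs with
  | nil => exact ⟨[], ∅, rfl, by simp, by simp [cnt], by simp [bad], by simp⟩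
  | cons R Rs ih =>
    obtain ⟨l, Bd, h1, h2, h3, h4, h5⟩ := ih (fun R' hR' => hR R' (List.mem_cons_of_mem _ hR'))
      (List.pairwise_cons.1 hpw).2
    have hRc : R.card ≤ m := hR R List.mem_cons_self
    have hRd : Disjoint Bd R := by
      rw [Finset.disjoint_left]
      intro e he heR
      obtain ⟨R', hR', heR'⟩ := mem_uni.1 (Finset.mem_inter.1 (h2 he)).1
      exact (Finset.disjoint_left.1 ((List.pairwise_cons.1 hpw).1 R' hR')) heR heR'
    set X := A \ cod A l with hX
    set H := R ∩ inn X with hH
    have hHd : Disjoint Bd H := Finset.disjoint_of_subset_right Finset.inter_subset_left hRd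
    have hHm : H.card ≤ m := (Finset.card_le_card Finset.inter_subset_left).trans hRc
    have hHA : H ⊆ R ∩ inn A :=
      Finset.inter_subset_inter_left (inn_mono Finset.sdiff_subset)
    set ripe := (verts R ∩ X).filter (fun v => D ≤ deg Bd v) with hripe
    by_cases hg : g ≤ ripe.card
    · -- choose this round
      refine ⟨(R, true) :: l, Bd, by rw [List.map_cons, h1], ?_, ?_, ?_, ?_⟩
      · refine h2.trans (Finset.inter_subset_inter_right ?_)
        rw [uni_cons]
        exact Finset.subset_union_right
      · have hdis : Disjoint (cod A l) ripe := by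
          rw [Finset.disjoint_left]
          intro v hv hvr
          have := (Finset.mem_inter.1 (Finset.mem_filter.1 hvr).1).2
          rw [hX, Finset.mem_sdiff] at this
          exact this.2 hv
        have hsub : cod A l ∪ ripe ⊆ cod A ((R, true) :: l) := by
          rw [cod_true]
          refine Finset.union_subset_union_right ?_
          intro v hv
          have := Finset.mem_inter.1 (Finset.mem_filter.1 hv).1
          refine Finset.mem_inter.2 ⟨this.1, ?_⟩
          rw [hX, Finset.mem_sdiff] at this
          exact this.2.1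
        have h6 : g * D ≤ ∑ v ∈ ripe, deg Bd v := by
          calc g * D ≤ ripe.card * D := Nat.mul_le_mul_right _ hg
            _ = ∑ v ∈ ripe, D := by rw [Finset.sum_const, smul_eq_mul]
            _ ≤ ∑ v ∈ ripe, deg Bd v :=
              Finset.sum_le_sum fun v hv => (Finset.mem_filter.1 hv).2
        calc cnt ((R, true) :: l) * (g * D) = cnt l * (g * D) + g * D := by
              rw [cnt_true]; ring
          _ ≤ ∑ v ∈ cod A l, deg Bd v + ∑ v ∈ ripe, deg Bd v := add_le_add h3 h6
          _ = ∑ v ∈ cod A l ∪ ripe, deg Bd v := (Finset.sum_union hdis).symm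
          _ ≤ _ := Finset.sum_le_sum_of_subset hsub
      · rw [bad_cons, cnt_true, mul_add, mul_one, ← hX, ← hH]
        omega
      · refine h5.trans (Nat.add_le_add_left (Nat.mul_le_mul_right _ ?_) _)
        rw [nr_cons]
        exact Nat.le_add_right _ _
    · -- do not choose this round
      rw [not_le] at hg
      have hdeg : ∀ v, deg (Bd ∪ H) v = deg Bd v + deg H v := fun v => deg_union hHd v
      have hcardBd : (Bd ∪ H).card = Bd.card + H.card := Finset.card_union_of_disjoint hHd
      refine ⟨(R, false) :: l, Bd ∪ H, by rw [List.map_cons, h1], ?_, ?_, ?_, ?_⟩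
      · refine Finset.union_subset (h2.trans (Finset.inter_subset_inter_right ?_)) ?_
        · rw [uni_cons]
          exact Finset.subset_union_right
        · refine hHA.trans (Finset.inter_subset_inter_right ?_)
          rw [uni_cons]
          exact Finset.subset_union_left
      · rw [cnt_false, cod_false]
        refine h3.trans (Finset.sum_le_sum fun v _ => ?_)
        rw [hdeg]
        exact Nat.le_add_right _ _
      · rw [bad_cons, cnt_false, hcardBd, ← hX, ← hH]
        omega
      · -- the main inequality
        rw [hcardBd]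
        have hsplit : H.card ≤ (H.filter (fun e => ∀ v ∈ e, D ≤ deg Bd v)).card +
            ∑ v ∈ A, (if deg Bd v < D then deg H v else 0) := by
          rw [← Finset.card_filter_add_card_filter_not (s := H) (fun e => ∀ v ∈ e, D ≤ deg Bd v)]
          refine Nat.add_le_add_left ?_ _
          have hsub : H.filter (fun e => ¬ ∀ v ∈ e, D ≤ deg Bd v) ⊆
              (A.filter (fun v => deg Bd v < D)).biUnion (fun v => H.filter (fun e => v ∈ e)) := by
            intro e he
            rw [Finset.mem_filter] at he
            obtain ⟨he1, he2⟩ := he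
            push Not at he2
            obtain ⟨v, hve, hvD⟩ := he2
            have hvA : v ∈ A := by
              have := (mem_inn.1 (Finset.mem_inter.1 (hHA he1)).2).2 v hve
              exact this
            exact Finset.mem_biUnion.2 ⟨v, Finset.mem_filter.2 ⟨hvA, hvD⟩,
              Finset.mem_filter.2 ⟨he1, hve⟩⟩
          refine (Finset.card_le_card hsub).trans (Finset.card_biUnion_le.trans ?_)
          rw [Finset.sum_filter]
          exact le_rfl
        have hripeE : (H.filter (fun e => ∀ v ∈ e, D ≤ deg Bd v)).card ≤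
            (if R ∩ inn A = ∅ then 0 else 1) * g ^ 2 := by
          by_cases hRA : R ∩ inn A = ∅
          · rw [if_pos hRA, zero_mul]
            have : H = ∅ := Finset.subset_empty.1 (hRA ▸ hHA)
            rw [this]
            simp
          · rw [if_neg hRA, one_mul]
            have hsub : H.filter (fun e => ∀ v ∈ e, D ≤ deg Bd v) ⊆ inn ripe := by
              intro e he
              rw [Finset.mem_filter] at he
              obtain ⟨he1, he2⟩ := he
              have he3 := Finset.mem_inter.1 he1
              have he4 := mem_inn.1 he3.2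
              refine mem_inn.2 ⟨he4.1, fun v hv => ?_⟩
              exact Finset.mem_filter.2 ⟨Finset.mem_inter.2 ⟨mem_verts.2 ⟨e, he3.1, hv⟩,
                he4.2 v hv⟩, he2 v hv⟩
            refine (Finset.card_le_card hsub).trans ?_
            rw [card_inn]
            refine (Nat.choose_le_choose 2 hg.le).trans ?_
            rw [Nat.choose_two_right, sq]
            exact (Nat.div_le_self _ _).trans (Nat.mul_le_mul_left _ (Nat.sub_le _ _))
        have hmin : ∑ v ∈ A, min (deg Bd v) (D + m) +
            ∑ v ∈ A, (if deg Bd v < D then deg H v else 0) ≤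
            ∑ v ∈ A, min (deg (Bd ∪ H) v) (D + m) := by
          rw [← Finset.sum_add_distrib]
          apply Finset.sum_le_sum
          intro v _
          rw [hdeg]
          have hHv : deg H v ≤ m := (deg_le H v).trans hHm
          split_ifs with h
          · omega
          · omega
        rw [nr_cons, add_mul]
        omega

end Pool.Agent.Helper65.CliqueGame
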