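import Pool.Agent.Helper65.Clique.Upper

/-!
# The upper bound for `q_m(n)`: final form
-/

set_option autoImplicit false

namespace Pool.Agent.Helper65.CliqueGame

open scoped Classical
open Filter Topology

theorem logb_div_tendsto :
    Tendsto (fun m : ℕ => Real.logb 2 ((m : ℝ) + 1) / m) atTop (𝓝 0) := by
  have h1 : Tendsto (fun x : ℝ => Real.log x / x) atTop (𝓝 0) := by
    have := Real.isLittleO_log_id_atTop.tendsto_div_nhds_zero
    simpa using this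
  have h2 : Tendsto (fun m : ℕ => ((m : ℝ) + 1)) atTop atTop :=
    tendsto_natCast_atTop_atTop.atTop_add tendsto_const_nhds
  have h3 := h1.comp h2
  have h4 : Tendsto (fun m : ℕ => (1 / Real.log 2) *
      ((Real.log ((m : ℝ) + 1) / ((m : ℝ) + 1)) * (1 + 1 / (m : ℝ)))) atTop (𝓝 0) := by
    have h5 : Tendsto (fun m : ℕ => 1 + 1 / (m : ℝ)) atTop (𝓝 (1 + 0)) :=
      tendsto_const_nhds.add tendsto_one_div_atTop_nhds_zero_nat
    have h6 := (h3.mul h5).const_mul (1 / Real.log 2)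
    simpa using h6
  refine h4.congr' ?_
  filter_upwards [eventually_ge_atTop 1] with m hm
  have hm0 : (0 : ℝ) < m := by exact_mod_cast hm
  unfold Real.logb
  field_simp

theorem upper_fixed {θ : ℝ} (hθ : 0 < θ) (hθ' : θ ≤ 1 / 16) {m : ℕ} (hm : 1 ≤ m)
    (hmθ : Real.logb 2 ((m : ℝ) + 1) / m * (4 * (θ ^ 8)⁻¹) ≤ θ ^ 2) :
    ∃ n₀ : ℕ, ∀ n ≥ n₀, ∀ q : ℕ, MakerWins n m q true ∅ ∅ →
      (q : ℝ) < (1 + 8 * θ) * (m / Real.logb 2 ((m : ℝ) + 1)) * Real.logb 2 n := by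
  have hm0 : (0 : ℝ) < m := by exact_mod_cast hm
  have hm1 : (1 : ℝ) ≤ m := by exact_mod_cast hm
  set c := Real.logb 2 ((m : ℝ) + 1) with hc
  have hc0 : 0 < c := Real.logb_pos (by norm_num) (by linarith)
  set a : ℝ := c / m with ha
  have ha0 : 0 < a := div_pos hc0 hm0
  set ζ := Real.logb 2 (9 * (1 + (m : ℝ))) with hζ
  have hζ0 : 0 ≤ ζ := Real.logb_nonneg (by norm_num) (by linarith)
  set K : ℝ := (3 + 2 * (m : ℝ) + 2 * m / a) + (4 * ζ * (θ ^ 8)⁻¹ + ζ / a) with hK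
  have hK0 : 0 ≤ K := by positivity
  have hlim : Tendsto (fun n : ℕ => Real.logb 2 (n : ℝ)) atTop atTop :=
    (Real.tendsto_logb_atTop (by norm_num)).comp tendsto_natCast_atTop_atTop
  have hev : ∀ᶠ n : ℕ in atTop, a * (K / θ ^ 2 + 2) < Real.logb 2 (n : ℝ) ∧ 2 ≤ n :=
    (hlim.eventually_gt_atTop _).and (eventually_ge_atTop 2)
  obtain ⟨n₀, hn₀⟩ := eventually_atTop.1 hev
  refine ⟨n₀, fun n hn q hw => ?_⟩
  obtain ⟨hL1, hn2⟩ := hn₀ n hn
  set L := Real.logb 2 (n : ℝ) with hLdef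
  by_contra hcon
  rw [not_lt] at hcon
  have hL0 : 0 < L := lt_of_le_of_lt (by positivity) hL1
  have hn0 : (0 : ℝ) < n := by
    have : 0 < n := by omega
    exact_mod_cast this
  have hmc : (m : ℝ) / c = 1 / a := by
    rw [ha]; field_simp
  -- `(1 + 8 θ) L ≤ a q`
  have hLq : (1 + 8 * θ) * L ≤ a * q := by
    rw [hmc] at hcon
    have h1 : a * ((1 + 8 * θ) * (1 / a) * L) ≤ a * q := mul_le_mul_of_nonneg_left hcon ha0.le
    have h2 : a * ((1 + 8 * θ) * (1 / a) * L) = (1 + 8 * θ) * L := by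
      field_simp
    linarith
  have hqK : K / θ ^ 2 + 2 < q := by
    have h1 : a * (K / θ ^ 2 + 2) < a * q := by nlinarith
    exact lt_of_mul_lt_mul_left h1 ha0.le
  have hθ2 : 0 < θ ^ 2 := by positivity
  have hKθ : K < θ ^ 2 * q := by
    have h1 : K / θ ^ 2 < q := by linarith
    rw [div_lt_iff₀ hθ2] at h1
    linarith
  have hq1 : (1 : ℝ) ≤ q := by
    have : 0 ≤ K / θ ^ 2 := by positivity
    linarith
  have hθ4i : 1 ≤ (θ ^ 4)⁻¹ := by
    rw [one_le_inv₀ (by positivity)]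
    exact pow_le_one₀ hθ.le (by linarith)
  obtain ⟨k, N, b, d, e1, e2, e3, e4, e5⟩ := exists_ineq hm (by omega : 1 ≤ n) hw
    ⌈θ ^ 2 * q⌉₊ ⌈(θ ^ 4)⁻¹⌉₊ ⌊θ * q⌋₊
    (Nat.one_le_iff_ne_zero.2 (by
      rw [← Nat.pos_iff_ne_zero, Nat.ceil_pos]; positivity))
    (Nat.floor_le_of_le (by nlinarith))
  have hζpos : (0 : ℝ) < 9 * (1 + m) := by positivity
  have htq : ⌊θ * (q : ℝ)⌋₊ ≤ q := Nat.floor_le_of_le (by nlinarith)
  have H2 : (N : ℝ) ≤ ζ + q * L := by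
    have h1 := Real.logb_le_logb_of_le (b := 2) (by norm_num) (by positivity) e2
    rw [Real.logb_mul hζpos.ne' (by positivity), Real.logb_pow, Real.logb_pow,
      Real.logb_self_eq_one (by norm_num), mul_one] at h1
    exact h1
  have H3 : a * d ≤ ζ + (⌊θ * (q : ℝ)⌋₊ : ℝ) * L + k * (2 * L + 2 * m) := by
    have h1 := Real.logb_le_logb_of_le (b := 2) (by norm_num) (by positivity) e3
    have h4 : Real.logb 2 (4 : ℝ) = 2 := by
      rw [show (4 : ℝ) = 2 ^ (2 : ℕ) by norm_num, Real.logb_pow,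
        Real.logb_self_eq_one (by norm_num)]
      norm_num
    rw [Real.logb_mul (by positivity) (by positivity), Real.logb_mul hζpos.ne' (by positivity),
      Real.logb_pow, Real.logb_inv, Real.logb_mul (by positivity) (by positivity), Real.logb_pow,
      Real.logb_pow, Real.logb_pow, Real.logb_rpow_eq_mul_logb_of_pos (by positivity), h4] at h1
    rw [← hLdef, ← hc, ← hζ] at h1
    have h5 : (d : ℝ) / m * c = a * d := by rw [ha]; ring
    rw [h5] at h1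
    push_cast at h1
    linarith
  refine numeric (θ := θ) (a := a) (M := m) (ζ := ζ) (L := L) (q := q)
    (t := (⌊θ * (q : ℝ)⌋₊ : ℝ)) (D := (⌈θ ^ 2 * (q : ℝ)⌉₊ : ℝ)) (g := (⌈(θ ^ 4)⁻¹⌉₊ : ℝ))
    (k := k) (N := N) (b := b) (c := d) hθ hθ' ha0 hm1 hζ0 hL0 hq1 hLq (Nat.cast_nonneg _)
    (Nat.cast_nonneg _) (Nat.le_ceil _) ?_ (Nat.le_ceil _) (Nat.ceil_lt_add_one (by positivity)).le
    (by exact_mod_cast e1) H2 H3 (by exact_mod_cast e4) ?_ (Nat.floor_le (by positivity)) ?_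
    (Nat.cast_nonneg _) hmθ hKθ
  · have := (Nat.ceil_lt_add_one (a := (θ ^ 4)⁻¹) (by positivity)).le
    linarith
  · have h1 : ((q.choose 2 : ℕ) : ℝ) ≤ ((d + b + (q - ⌊θ * (q : ℝ)⌋₊).choose 2 : ℕ) : ℝ) := by
      exact_mod_cast e5
    push_cast at h1
    rw [Nat.cast_choose_two, Nat.cast_choose_two, Nat.cast_sub htq] at h1
    exact h1
  · have := Nat.lt_floor_add_one (θ * (q : ℝ))
    linarith

/-- **Upper bound.** For every `ε > 0`, for all large `m`, for all large `n`, Maker cannot build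
a clique of size larger than `(1 + ε) (m / log₂(m+1)) log₂ n`. -/
theorem upper (ε : ℝ) (hε : 0 < ε) : ∃ m₀ : ℕ, ∀ m ≥ m₀, ∃ n₀ : ℕ, ∀ n ≥ n₀, ∀ q : ℕ,
    MakerWins n m q true ∅ ∅ →
      (q : ℝ) < (1 + ε) * (m / Real.logb 2 ((m : ℝ) + 1)) * Real.logb 2 n := by
  set θ : ℝ := min ε (1 / 2) / 8 with hθdef
  have hθ : 0 < θ := by
    have : 0 < min ε (1 / 2) := lt_min hε (by norm_num)
    positivity
  have hθ' : θ ≤ 1 / 16 := by
    have : min ε (1 / 2) ≤ 1 / 2 := min_le_right _ _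
    rw [hθdef]; linarith
  have h8 : 8 * θ ≤ ε := by
    have : min ε (1 / 2) ≤ ε := min_le_left _ _
    rw [hθdef]; linarith
  have hlim : Tendsto (fun m : ℕ => Real.logb 2 ((m : ℝ) + 1) / m * (4 * (θ ^ 8)⁻¹)) atTop
      (𝓝 (0 * (4 * (θ ^ 8)⁻¹))) := logb_div_tendsto.mul_const _
  rw [zero_mul] at hlim
  have hev : ∀ᶠ m : ℕ in atTop,
      Real.logb 2 ((m : ℝ) + 1) / m * (4 * (θ ^ 8)⁻¹) < θ ^ 2 ∧ 1 ≤ m :=
    (hlim.eventually (gt_mem_nhds (by positivity))).and (eventually_ge_atTop 1)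
  obtain ⟨m₀, hm₀⟩ := eventually_atTop.1 hev
  refine ⟨m₀, fun m hm => ?_⟩
  obtain ⟨h1, h2⟩ := hm₀ m hm
  obtain ⟨n₀, hn₀⟩ := upper_fixed hθ hθ' h2 h1.le
  refine ⟨max n₀ 1, fun n hn q hw => ?_⟩
  refine (hn₀ n ((le_max_left _ _).trans hn) q hw).trans_le ?_
  have hn1 : (1 : ℝ) ≤ n := by exact_mod_cast (le_max_right n₀ 1).trans hn
  have hm0 : (1 : ℝ) ≤ m := by exact_mod_cast h2
  have hL : 0 ≤ Real.logb 2 (n : ℝ) := Real.logb_nonneg (by norm_num) hn1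
  have hc : 0 ≤ Real.logb 2 ((m : ℝ) + 1) := Real.logb_nonneg (by norm_num) (by linarith)
  refine mul_le_mul_of_nonneg_right (mul_le_mul_of_nonneg_right (by linarith) ?_) hL
  positivity

end Pool.Agent.Helper65.CliqueGame
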