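import Pool.Agent.Helper65.Clique.Beck
import Pool.Agent.Helper65.Clique.UpperMain
import Pool.Agent.Helper85.CliqueLB

/-!
# The `(m : m)` clique game: `q_m(n) = (1 + O((log m / m)^(1/10))) (m / log₂(m+1)) log₂ n`

`MakerWins`, `qm` and the notions they use are defined in `Pool/Agent/Helper65/Clique/Defs.lean`.
-/

set_option autoImplicit false

namespace Pool.Agent.Helper65.CliqueGame.AsymptoticValue

open Pool.Agent.Helper65.CliqueGame
open Filter Topology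

theorem makerWins_zero {n m : ℕ} (hm : 1 ≤ m) : MakerWins n m 0 true ∅ ∅ :=
  Pool.Agent.Helper85.CliqueLB.wins_of_clique hm _ _ _ _ le_rfl ⟨∅, by simp, by simp⟩

theorem le_of_makerWins {n m q : ℕ} {t : Bool} {M B : Finset (Sym2 (Fin n))}
    (h : MakerWins n m q t M B) : q ≤ n := by
  have key : ∀ M : Finset (Sym2 (Fin n)), HasClique q M → q ≤ n := by
    rintro M ⟨A, hA, -⟩
    have := Finset.card_le_univ A
    rw [Fintype.card_fin] at this
    omega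
  induction h with
  | finish t M B _ hc => exact key M hc
  | maker M B S _ _ _ ih => exact ih
  | breaker M B hne _ ih =>
    classical
    obtain ⟨S, _, hS⟩ := Pool.Agent.Helper85.CliqueLB.exists_legal m M B ∅
      (Finset.empty_subset _) (by simp)
    exact ih S hS

theorem qm_spec {m : ℕ} (hm : 1 ≤ m) (n : ℕ) : MakerWins n m (qm m n) true ∅ ∅ ∧
    ∀ q, MakerWins n m q true ∅ ∅ → q ≤ qm m n := by
  have hne : {q | MakerWins n m q true ∅ ∅}.Nonempty := ⟨0, makerWins_zero hm⟩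
  have hbd : BddAbove {q | MakerWins n m q true ∅ ∅} := ⟨n, fun q hq => le_of_makerWins hq⟩
  exact ⟨Nat.sSup_mem hne hbd, fun q hq => le_csSup hbd hq⟩

theorem rate {m : ℕ} (hm : 1 ≤ m) : ∃ n₀ : ℕ, ∀ n ≥ n₀,
    (qm m n : ℝ) ≤ (1 + 19 * (Real.logb 2 ((m : ℝ) + 1) / m) ^ (1 / 10 : ℝ)) *
      (m / Real.logb 2 ((m : ℝ) + 1) * Real.logb 2 n) := by
  have hm0 : (0 : ℝ) < m := by exact_mod_cast hm
  have hm1 : (1 : ℝ) ≤ m := by exact_mod_cast hm
  set c := Real.logb 2 ((m : ℝ) + 1) with hc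
  have hc0 : 0 < c := Real.logb_pos (by norm_num) (by linarith)
  set y : ℝ := c / m with hy
  have hy0 : 0 < y := div_pos hc0 hm0
  have hX : (0 : ℝ) < m / c := div_pos hm0 hc0
  set z : ℝ := y ^ (1 / 10 : ℝ) with hz
  have hz0 : 0 < z := Real.rpow_pos_of_pos hy0 _
  have hz10 : z ^ 10 = y := by
    rw [hz, ← Real.rpow_natCast, ← Real.rpow_mul hy0.le]
    norm_num
  -- `(23/20) ^ 10 ≥ 4`
  have h4 : (4 : ℝ) ≤ (23 / 20) ^ 10 := by norm_num
  by_cases hsm : 23 / 20 * z ≤ 1 / 16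
  · -- small `θ`
    have hθ : 0 < 23 / 20 * z := by positivity
    obtain ⟨n₀, hn₀⟩ := upper_fixed hθ hsm hm (by
      rw [← hc, ← hy, ← hz10]
      have h8 : (0 : ℝ) < (23 / 20 * z) ^ 8 := by positivity
      rw [← div_eq_mul_inv, ← mul_div_assoc, div_le_iff₀ h8, mul_pow, mul_pow]
      have : (0 : ℝ) < z ^ 10 := by positivity
      nlinarith)
    refine ⟨max n₀ 1, fun n hn => ?_⟩
    have hw := (qm_spec hm n).1
    have h1 := hn₀ n ((le_max_left _ _).trans hn) _ hw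
    have hn1 : (1 : ℝ) ≤ n := by exact_mod_cast (le_max_right n₀ 1).trans hn
    have hL : 0 ≤ Real.logb 2 (n : ℝ) := Real.logb_nonneg (by norm_num) hn1
    rw [← hc] at h1
    calc (qm m n : ℝ) ≤ (1 + 8 * (23 / 20 * z)) * (m / c) * Real.logb 2 n := h1.le
      _ = (1 + 8 * (23 / 20 * z)) * (m / c * Real.logb 2 n) := by ring
      _ ≤ (1 + 19 * z) * (m / c * Real.logb 2 n) := by
          apply mul_le_mul_of_nonneg_right _ (by positivity)
          linarith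
  · -- large `θ`: the simple bound
    rw [not_le] at hsm
    have hz1 : 1 < 19 * z := by linarith
    have hlim : Tendsto (fun n : ℕ => Real.logb 2 (n : ℝ)) atTop atTop :=
      (Real.tendsto_logb_atTop (by norm_num)).comp tendsto_natCast_atTop_atTop
    have hpos : 0 < (19 * z - 1) * (m / c) := mul_pos (by linarith) hX
    have hev : ∀ᶠ n : ℕ in atTop,
        (2 * (m : ℝ) + 1) / ((19 * z - 1) * (m / c)) ≤ Real.logb 2 (n : ℝ) ∧ 1 ≤ n :=
      (hlim.eventually_ge_atTop _).and (eventually_ge_atTop 1)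
    obtain ⟨n₀, hn₀⟩ := eventually_atTop.1 hev
    refine ⟨n₀, fun n hn => ?_⟩
    obtain ⟨h1, h2⟩ := hn₀ n hn
    have hw := (qm_spec hm n).1
    have h3 := beck_log hm h2 hw
    rw [← hc] at h3
    rw [div_le_iff₀ hpos] at h1
    calc (qm m n : ℝ) ≤ 2 * (m / c) * Real.logb 2 n + (2 * m + 1) := h3
      _ ≤ 2 * (m / c) * Real.logb 2 n + Real.logb 2 n * ((19 * z - 1) * (m / c)) := by linarith
      _ = (1 + 19 * z) * (m / c * Real.logb 2 n) := by ring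

/-- **The asymptotic value of `q_m(n)`.** -/
theorem result :
    (∀ m : ℕ, 1 ≤ m → ∀ n : ℕ, MakerWins n m (qm m n) true ∅ ∅ ∧
      ∀ q, MakerWins n m q true ∅ ∅ → q ≤ qm m n) ∧
    (∀ m : ℕ, 1 ≤ m → ∀ ε : ℝ, 0 < ε → ∃ n₀ : ℕ, ∀ n ≥ n₀,
      (1 - ε) * (m / Real.logb 2 ((m : ℝ) + 1) * Real.logb 2 n) ≤ qm m n ∧
      (qm m n : ℝ) ≤ (1 + 19 * (Real.logb 2 ((m : ℝ) + 1) / m) ^ (1 / 10 : ℝ)) *
        (m / Real.logb 2 ((m : ℝ) + 1) * Real.logb 2 n)) ∧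
    (∀ ε : ℝ, 0 < ε → ∃ m₀ : ℕ, ∀ m ≥ m₀, ∃ n₀ : ℕ, ∀ n ≥ n₀,
      |(qm m n : ℝ) - m / Real.logb 2 ((m : ℝ) + 1) * Real.logb 2 n| ≤
        ε * (m / Real.logb 2 ((m : ℝ) + 1) * Real.logb 2 n)) := by
  have two : ∀ m : ℕ, 1 ≤ m → ∀ ε : ℝ, 0 < ε → ∃ n₀ : ℕ, ∀ n ≥ n₀,
      (1 - ε) * (m / Real.logb 2 ((m : ℝ) + 1) * Real.logb 2 n) ≤ qm m n ∧
      (qm m n : ℝ) ≤ (1 + 19 * (Real.logb 2 ((m : ℝ) + 1) / m) ^ (1 / 10 : ℝ)) *
        (m / Real.logb 2 ((m : ℝ) + 1) * Real.logb 2 n) := by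
    intro m hm ε hε
    obtain ⟨n₁, h1⟩ := rate hm
    set ε' : ℝ := min ε 1 / 2 with hε'
    have hε'0 : 0 < ε' := by
      have : 0 < min ε 1 := lt_min hε one_pos
      positivity
    have hε'1 : ε' ≤ 1 / 2 := by
      have : min ε 1 ≤ 1 := min_le_right _ _
      rw [hε']; linarith
    have hε'2 : 2 * ε' ≤ ε := by
      have : min ε 1 ≤ ε := min_le_left _ _
      rw [hε']; linarith
    have hm0 : (0 : ℝ) < m := by exact_mod_cast hm
    have hm1 : (1 : ℝ) ≤ m := by exact_mod_cast hm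
    set c := Real.logb 2 ((m : ℝ) + 1) with hc
    have hc0 : 0 < c := Real.logb_pos (by norm_num) (by linarith)
    have hX : (0 : ℝ) < m / c := div_pos hm0 hc0
    obtain ⟨n₂, h2⟩ := Pool.Agent.Helper85.CliqueLB.lower_bound m hm ε' hε'0
    have hlim : Tendsto (fun n : ℕ => Real.logb 2 (n : ℝ)) atTop atTop :=
      (Real.tendsto_logb_atTop (by norm_num)).comp tendsto_natCast_atTop_atTop
    have hpos : 0 < ε' * (m / c) := mul_pos hε'0 hX
    have hev : ∀ᶠ n : ℕ in atTop, 1 / (ε' * (m / c)) ≤ Real.logb 2 (n : ℝ) ∧ 1 ≤ n :=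
      (hlim.eventually_ge_atTop _).and (eventually_ge_atTop 1)
    obtain ⟨n₃, h3⟩ := eventually_atTop.1 hev
    refine ⟨max n₁ (max n₂ n₃), fun n hn => ⟨?_, h1 n ((le_max_left _ _).trans hn)⟩⟩
    have hn2 : n₂ ≤ n := ((le_max_left _ _).trans (le_max_right _ _)).trans hn
    have hn3 : n₃ ≤ n := ((le_max_right _ _).trans (le_max_right _ _)).trans hn
    obtain ⟨h4, h5⟩ := h3 n hn3
    have hn1 : (1 : ℝ) ≤ n := by exact_mod_cast h5
    have hL : 0 ≤ Real.logb 2 (n : ℝ) := Real.logb_nonneg (by norm_num) hn1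
    rw [div_le_iff₀ hpos] at h4
    set L := Real.logb 2 (n : ℝ) with hLd
    set Y : ℝ := (1 - ε') * (m / c) * L with hY
    have hY0 : 0 ≤ Y := by
      have : 0 ≤ 1 - ε' := by linarith
      positivity
    have h6 := (qm_spec hm n).2 ⌊Y⌋₊ (h2 n hn2 ⌊Y⌋₊ (Nat.floor_le hY0))
    have h7 : (⌊Y⌋₊ : ℝ) ≤ qm m n := by exact_mod_cast h6
    have h8 := Nat.lt_floor_add_one Y
    have h9 : (1 - ε) * (m / c * L) ≤ (1 - 2 * ε') * (m / c * L) :=
      mul_le_mul_of_nonneg_right (by linarith) (by positivity)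
    have h10 : (1 - 2 * ε') * (m / c * L) = Y - L * (ε' * (m / c)) := by rw [hY]; ring
    linarith
  refine ⟨fun m hm n => qm_spec hm n, two, ?_⟩
  intro ε hε
  have hlim : Tendsto (fun m : ℕ => 19 * (Real.logb 2 ((m : ℝ) + 1) / m) ^ (1 / 10 : ℝ)) atTop
      (𝓝 (19 * (0 : ℝ) ^ (1 / 10 : ℝ))) :=
    (logb_div_tendsto.rpow_const (Or.inr (by norm_num))).const_mul _
  rw [Real.zero_rpow (by norm_num), mul_zero] at hlim
  have hev := (hlim.eventually (gt_mem_nhds hε)).and (eventually_ge_atTop 1)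
  obtain ⟨m₀, hm₀⟩ := eventually_atTop.1 hev
  refine ⟨m₀, fun m hm => ?_⟩
  obtain ⟨h1, h2⟩ := hm₀ m hm
  obtain ⟨n₀, hn₀⟩ := two m h2 ε hε
  refine ⟨max n₀ 1, fun n hn => ?_⟩
  obtain ⟨h3, h4⟩ := hn₀ n ((le_max_left _ _).trans hn)
  have hn1 : (1 : ℝ) ≤ n := by exact_mod_cast (le_max_right n₀ 1).trans hn
  have hm1 : (1 : ℝ) ≤ m := by exact_mod_cast h2
  have hL : 0 ≤ Real.logb 2 (n : ℝ) := Real.logb_nonneg (by norm_num) hn1
  have hc : 0 ≤ Real.logb 2 ((m : ℝ) + 1) := Real.logb_nonneg (by norm_num) (by linarith)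
  have hX : 0 ≤ (m : ℝ) / Real.logb 2 ((m : ℝ) + 1) * Real.logb 2 n := by positivity
  rw [abs_le]
  constructor
  · linarith
  · have h5 : (1 + 19 * (Real.logb 2 ((m : ℝ) + 1) / m) ^ (1 / 10 : ℝ)) *
        (m / Real.logb 2 ((m : ℝ) + 1) * Real.logb 2 n) ≤
        (1 + ε) * (m / Real.logb 2 ((m : ℝ) + 1) * Real.logb 2 n) :=
      mul_le_mul_of_nonneg_right (by linarith) hX
    linarith

end Pool.Agent.Helper65.CliqueGame.AsymptoticValue
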