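import Pool.Agent.Helper65.Clique.Upper

/-!
# The simple upper bound (Beck)
-/

set_option autoImplicit false

namespace Pool.Agent.Helper65.CliqueGame

open scoped Classical

variable {n : ℕ}

/-- the weight of a set of vertices -/
noncomputable def wq (q : ℕ) (Rs : List (Finset (Sym2 (Fin n)))) (A : Finset (Fin n)) : ℝ :=
  if A.card = q then (Rs.map fun R => (1 + ((R ∩ inn A).card : ℝ))).prod else 0

theorem wq_nonneg (q : ℕ) (Rs : List (Finset (Sym2 (Fin n)))) (A : Finset (Fin n)) :
    0 ≤ wq q Rs A := by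
  unfold wq
  split_ifs
  · apply List.prod_nonneg
    intro a ha
    obtain ⟨R, _, rfl⟩ := List.mem_map.1 ha
    positivity
  · exact le_rfl

theorem wq_cons (q : ℕ) (R : Finset (Sym2 (Fin n))) (Rs : List (Finset (Sym2 (Fin n))))
    (A : Finset (Fin n)) : wq q (R :: Rs) A = wq q Rs A * (1 + ((R ∩ inn A).card : ℝ)) := by
  unfold wq
  split_ifs
  · rw [List.map_cons, List.prod_cons, mul_comm]
  · simp

theorem prod_lower {m : ℕ} (hm : 1 ≤ m) (Rs : List (Finset (Sym2 (Fin n))))
    (hR : ∀ R ∈ Rs, R.card ≤ m) (A : Finset (Fin n)) :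
    ((m : ℝ) + 1) ^ (((uni Rs ∩ inn A).card : ℝ) / m) ≤
      (Rs.map fun R => (1 + ((R ∩ inn A).card : ℝ))).prod := by
  induction Rs with
  | nil => simp
  | cons R Rs ih =>
    have ih' := ih (fun R' hR' => hR R' (List.mem_cons_of_mem _ hR'))
    have hRc : R.card ≤ m := hR R List.mem_cons_self
    rw [List.map_cons, List.prod_cons, uni_cons, mul_comm]
    set h := (R ∩ inn A).card with hh
    have hhm : h ≤ m := (Finset.card_le_card Finset.inter_subset_left).trans hRc
    have h1 := rpow_le_one_add hm hhm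
    have h2 : ((R ∪ uni Rs) ∩ inn A).card ≤ (uni Rs ∩ inn A).card + h := by
      rw [Finset.union_inter_distrib_right, add_comm]
      exact Finset.card_union_le _ _
    calc ((m : ℝ) + 1) ^ ((((R ∪ uni Rs) ∩ inn A).card : ℝ) / m)
        ≤ ((m : ℝ) + 1) ^ ((((uni Rs ∩ inn A).card + h : ℕ) : ℝ) / m) := by
          apply Real.rpow_le_rpow_of_exponent_le (by linarith [Nat.cast_nonneg (α := ℝ) m])
          apply div_le_div_of_nonneg_right _ (Nat.cast_nonneg _)
          exact_mod_cast h2
      _ = ((m : ℝ) + 1) ^ (((uni Rs ∩ inn A).card : ℝ) / m) * ((m : ℝ) + 1) ^ ((h : ℝ) / m) := by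
          rw [← Real.rpow_add (by positivity)]
          congr 1
          push_cast
          ring
      _ ≤ _ := mul_le_mul ih' h1 (by positivity) (List.prod_nonneg (by
          intro a ha
          obtain ⟨R, _, rfl⟩ := List.mem_map.1 ha
          positivity))

/-- Beck's bound: if Maker wins then `(m+1)^(C(q,2)/m) ≤ (m+1) n^q`. -/
theorem beck {m q : ℕ} (hm : 1 ≤ m) (hw : MakerWins n m q true ∅ ∅) :
    ((m : ℝ) + 1) ^ ((q.choose 2 : ℝ) / m) ≤ ((m : ℝ) + 1) * (n : ℝ) ^ q := by
  by_contra hcon
  rw [not_le] at hcon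
  refine breaker_wins (n := n) (m := m) (q := q) hm
    (fun Rs B => Phi (σ := Finset (Fin n)) (fun A => wq q Rs A) (fun A => inn A) B) 0
    (((m : ℝ) + 1) * (n : ℝ) ^ q) le_rfl
    (fun Rs B => Phi_nonneg (σ := Finset (Fin n)) (fun A => inn A) (fun A => wq_nonneg q Rs A) B)
    ?_ ?_ ?_ hw
  · intro Rs B _ _
    obtain ⟨S, hS, hc, hR⟩ := round (σ := Finset (Fin n)) (μ := fun A => wq q Rs A)
      (fun A => inn A) (fun A => wq_nonneg q Rs A) B (free (uni Rs) B) hm
    refine ⟨S, ⟨hS, hc⟩, Phi_anti (σ := Finset (Fin n)) (fun A => inn A)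
      (fun A => wq_nonneg q Rs A) Finset.subset_union_left, ?_⟩
    intro R hRf hRm
    rw [add_zero, one_mul]
    have h1 := hR R (by
      intro e he
      have := hRf he
      unfold free at this ⊢
      simp only [Finset.mem_sdiff, Finset.mem_union] at this ⊢
      tauto) hRm
    refine le_trans (le_of_eq ?_) h1
    simp only [wq_cons]
  · intro R _ hRc
    rw [add_zero, one_pow, mul_one]
    unfold Phi
    have h1 : ∀ A : Finset (Fin n),
        (if Disjoint (inn A) (∅ : Finset (Sym2 (Fin n))) then wq q [R] A else 0) ≤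
          if A ∈ Finset.powersetCard q Finset.univ then (m : ℝ) + 1 else 0 := by
      intro A
      rw [if_pos (Finset.disjoint_empty_right _)]
      unfold wq
      by_cases h : A.card = q
      · rw [if_pos h, if_pos (Finset.mem_powersetCard.2 ⟨Finset.subset_univ _, h⟩)]
        simp only [List.map_cons, List.map_nil, List.prod_cons, List.prod_nil, mul_one]
        have : (R ∩ inn A).card ≤ m := (Finset.card_le_card Finset.inter_subset_left).trans hRc
        have : ((R ∩ inn A).card : ℝ) ≤ m := by exact_mod_cast this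
        linarith
      · rw [if_neg h]
        split_ifs
        · positivity
        · exact le_rfl
    refine (Finset.sum_le_sum fun A _ => h1 A).trans ?_
    rw [Finset.sum_ite_mem, Finset.univ_inter, Finset.sum_const, Finset.card_powersetCard,
      Finset.card_univ, Fintype.card_fin, nsmul_eq_mul, mul_comm]
    refine mul_le_mul_of_nonneg_left ?_ (by positivity)
    exact_mod_cast Nat.choose_le_pow n q
  · intro Rs B hR _ hB hcl
    obtain ⟨A, hA, hAcl⟩ := hcl
    have hinn : inn A ⊆ uni Rs := by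
      intro e he
      rw [mem_inn] at he
      induction e with
      | _ a b =>
        rw [Sym2.mk_isDiag_iff] at he
        exact hAcl a (he.2 a (Sym2.mem_mk_left a b)) b (he.2 b (Sym2.mem_mk_right a b)) he.1
    have h1 := prod_lower hm Rs hR A
    rw [Finset.inter_eq_right.2 hinn, card_inn, hA] at h1
    have h2 : wq q Rs A ≤ Phi (σ := Finset (Fin n)) (fun A => wq q Rs A) (fun A => inn A) B := by
      unfold Phi
      have h3 : ∀ A' ∈ (Finset.univ : Finset (Finset (Fin n))),
          0 ≤ (if Disjoint (inn A') B then wq q Rs A' else 0) := by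
        intro A' _
        split_ifs
        · exact wq_nonneg q Rs A'
        · exact le_rfl
      refine le_trans ?_ (Finset.single_le_sum h3 (Finset.mem_univ A))
      rw [if_pos (Finset.disjoint_of_subset_left hinn hB)]
    have h4 : wq q Rs A = (Rs.map fun R => (1 + ((R ∩ inn A).card : ℝ))).prod := by
      unfold wq
      rw [if_pos hA]
    rw [h4] at h2
    exact hcon.trans_le (h1.trans h2)

/-- Beck's bound, in terms of `log₂`. -/
theorem beck_log {m q : ℕ} (hm : 1 ≤ m) (hn : 1 ≤ n) (hw : MakerWins n m q true ∅ ∅) :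
    (q : ℝ) ≤ 2 * (m / Real.logb 2 ((m : ℝ) + 1)) * Real.logb 2 n + (2 * m + 1) := by
  have hm0 : (0 : ℝ) < m := by exact_mod_cast hm
  have hm1 : (1 : ℝ) ≤ m := by exact_mod_cast hm
  have hn0 : (0 : ℝ) < n := by exact_mod_cast hn
  have hn1 : (1 : ℝ) ≤ n := by exact_mod_cast hn
  set c := Real.logb 2 ((m : ℝ) + 1) with hc
  have hc0 : 0 < c := Real.logb_pos (by norm_num) (by linarith)
  have hL0 : 0 ≤ Real.logb 2 (n : ℝ) := Real.logb_nonneg (by norm_num) hn1
  rcases Nat.eq_zero_or_pos q with rfl | hq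
  · rw [Nat.cast_zero]
    positivity
  have hq0 : (0 : ℝ) < q := by exact_mod_cast hq
  have hq1 : (1 : ℝ) ≤ q := by exact_mod_cast hq
  have h1 := Real.logb_le_logb_of_le (b := 2) (by norm_num) (by positivity) (beck hm hw)
  rw [Real.logb_rpow_eq_mul_logb_of_pos (by positivity), Real.logb_mul (by positivity)
    (by positivity), Real.logb_pow, ← hc] at h1
  set L := Real.logb 2 (n : ℝ) with hL
  have h2 : ((q.choose 2 : ℕ) : ℝ) = q * (q - 1) / 2 := Nat.cast_choose_two ℝ q
  rw [h2] at h1
  have h3 : q * ((q - 1) * c) ≤ q * (2 * m * (L + c)) := by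
    have h4 : (q : ℝ) * (q - 1) / 2 / m * c * (2 * m) ≤ (c + q * L) * (2 * m) :=
      mul_le_mul_of_nonneg_right h1 (by positivity)
    have h5 : (q : ℝ) * (q - 1) / 2 / m * c * (2 * m) = q * ((q - 1) * c) := by
      field_simp
    rw [h5] at h4
    have h6 : c * (2 * m) ≤ q * (c * (2 * m)) := le_mul_of_one_le_left (by positivity) hq1
    nlinarith
  have h7 := le_of_mul_le_mul_left h3 hq0
  have h8 : ((q : ℝ) - 1) ≤ 2 * m * (L + c) / c := by
    rw [le_div_iff₀ hc0]
    exact h7
  have h9 : 2 * m * (L + c) / c = 2 * (m / c) * L + 2 * m := by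
    field_simp
  rw [h9] at h8
  linarith

end Pool.Agent.Helper65.CliqueGame
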