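import Mathlib

/-!
# The `(m : m)` Maker-Breaker clique game on `K_n`
-/

set_option autoImplicit false

namespace Pool.Agent.Helper65.CliqueGame

open scoped Classical

/-- The set of all edges of the complete graph `K_n`. -/
noncomputable def edges (n : ℕ) : Finset (Sym2 (Fin n)) :=
  Finset.univ.filter (fun e => ¬ e.IsDiag)

/-- The free edges when Maker has claimed the edges `M` and Breaker has claimed the edges `B`. -/
noncomputable def free {n : ℕ} (M B : Finset (Sym2 (Fin n))) : Finset (Sym2 (Fin n)) :=
  edges n \ (M ∪ B)

/-- A legal move: `S` consists of `m` free edges, or of all the free edges if fewer than `m` are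
left. -/
def Legal {n : ℕ} (m : ℕ) (M B S : Finset (Sym2 (Fin n))) : Prop :=
  S ⊆ free M B ∧ S.card = min m (free M B).card

/-- The graph with edge set `M` contains a copy of `K_q`. -/
def HasClique {n : ℕ} (q : ℕ) (M : Finset (Sym2 (Fin n))) : Prop :=
  ∃ A : Finset (Fin n), A.card = q ∧ ∀ u ∈ A, ∀ v ∈ A, u ≠ v → s(u, v) ∈ M

/-- `MakerWins n m q t M B`: from the position in which Maker owns `M` and Breaker owns `B`, and
it is Maker's turn if `t = true` and Breaker's turn if `t = false`, Maker can force that in the
end, when every edge is claimed, his graph contains a copy of `K_q`. -/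
inductive MakerWins (n m q : ℕ) :
    Bool → Finset (Sym2 (Fin n)) → Finset (Sym2 (Fin n)) → Prop
  | finish (t : Bool) (M B : Finset (Sym2 (Fin n))) :
      free M B = ∅ → HasClique q M → MakerWins n m q t M B
  | maker (M B S : Finset (Sym2 (Fin n))) :
      free M B ≠ ∅ → Legal m M B S → MakerWins n m q false (M ∪ S) B → MakerWins n m q true M B
  | breaker (M B : Finset (Sym2 (Fin n))) :
      free M B ≠ ∅ → (∀ S, Legal m M B S → MakerWins n m q true M (B ∪ S)) →
      MakerWins n m q false M B

/-- `q_m(n)`, the largest `q` such that Maker, who moves first, wins the `(m : m)` `K_q`-game on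
`K_n`. -/
noncomputable def qm (m n : ℕ) : ℕ := sSup {q | MakerWins n m q true ∅ ∅}

end Pool.Agent.Helper65.CliqueGame
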