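import Pool.Agent.Helper65.Clique.Defs

/-!
# Breaker wins if there is a good history potential
-/

set_option autoImplicit false

namespace Pool.Agent.Helper65.CliqueGame

open scoped Classical

variable {n : ℕ}

/-- the union of the rounds -/
noncomputable def uni (Rs : List (Finset (Sym2 (Fin n)))) : Finset (Sym2 (Fin n)) :=
  Rs.foldr (· ∪ ·) ∅

@[simp] theorem uni_nil : uni ([] : List (Finset (Sym2 (Fin n)))) = ∅ := rfl

@[simp] theorem uni_cons (R : Finset (Sym2 (Fin n))) (Rs : List (Finset (Sym2 (Fin n)))) :
    uni (R :: Rs) = R ∪ uni Rs := rfl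

theorem mem_uni {Rs : List (Finset (Sym2 (Fin n)))} {e : Sym2 (Fin n)} :
    e ∈ uni Rs ↔ ∃ R ∈ Rs, e ∈ R := by
  induction Rs with
  | nil => simp
  | cons R Rs ih => simp [ih]

theorem breaker_wins {m q : ℕ} (hm : 1 ≤ m)
    (pot : List (Finset (Sym2 (Fin n))) → Finset (Sym2 (Fin n)) → ℝ) (y Z : ℝ) (hy : 0 ≤ y)
    (hpos : ∀ Rs B, 0 ≤ pot Rs B)
    (hstep : ∀ Rs B, (∀ R ∈ Rs, R.card ≤ m) → free (uni Rs) B ≠ ∅ →
      ∃ S, Legal m (uni Rs) B S ∧ pot Rs (B ∪ S) ≤ pot Rs B ∧
        ∀ R, R ⊆ free (uni Rs) (B ∪ S) → R.card ≤ m →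
          pot (R :: Rs) (B ∪ S) ≤ (1 + y) * pot Rs B)
    (hinit : ∀ R, R ⊆ edges n → R.card ≤ m → pot [R] ∅ * (1 + y) ^ (edges n).card ≤ Z)
    (hfin : ∀ Rs B, (∀ R ∈ Rs, R.card ≤ m) → Rs.Pairwise Disjoint → Disjoint (uni Rs) B →
      HasClique q (uni Rs) → Z < pot Rs B) :
    ¬ MakerWins n m q true ∅ ∅ := by
  have h1y : 1 ≤ 1 + y := by linarith
  -- main claim
  have key : ∀ (t : Bool) (M B : Finset (Sym2 (Fin n))), MakerWins n m q t M B →
      ∀ Rs, uni Rs = M → (∀ R ∈ Rs, R.card ≤ m) → Rs.Pairwise Disjoint → Disjoint M B →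
        (t = false → ¬ pot Rs B * (1 + y) ^ (free M B).card ≤ Z) ∧
        (t = true → ¬ (pot Rs B ≤ Z ∧ ∀ R, R ⊆ free M B → R.card ≤ m → R ≠ ∅ →
          pot (R :: Rs) B * (1 + y) ^ (free (M ∪ R) B).card ≤ Z)) := by
    intro t M B h
    induction h with
    | finish t M B hfree hcl =>
      intro Rs hM hcard hpw hdisj
      have hZ : Z < pot Rs B := hfin Rs B hcard hpw (by rw [hM]; exact hdisj)
        (by rw [hM]; exact hcl)
      refine ⟨fun _ hle => ?_, fun _ hle => ?_⟩
      · rw [hfree, Finset.card_empty, pow_zero, mul_one] at hle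
        linarith
      · linarith [hle.1]
    | maker M B S hfree hleg _ ih =>
      intro Rs hM hcard hpw hdisj
      refine ⟨fun h => by simp at h, fun _ hle => ?_⟩
      have hScard : S.card ≤ m := by rw [hleg.2]; exact min_le_left _ _
      have hSne : S ≠ ∅ := by
        intro h0
        have h1 := hleg.2
        rw [h0, Finset.card_empty] at h1
        have h2 : 0 < (free M B).card :=
          Finset.card_pos.2 (Finset.nonempty_iff_ne_empty.2 hfree)
        have : 0 < min m (free M B).card := lt_min (by omega) h2
        omega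
      have hSB : Disjoint S B := by
        rw [Finset.disjoint_left]
        intro e he heB
        have := hleg.1 he
        unfold free at this
        rw [Finset.mem_sdiff, Finset.mem_union] at this
        exact this.2 (Or.inr heB)
      have := (ih (S :: Rs) (by rw [uni_cons, hM, Finset.union_comm])
        (by
          intro R hR
          rcases List.mem_cons.1 hR with rfl | hR
          · exact hScard
          · exact hcard R hR)
        (List.pairwise_cons.2 ⟨fun R hR => by
          rw [Finset.disjoint_left]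
          intro e heS heR
          have := hleg.1 heS
          unfold free at this
          rw [Finset.mem_sdiff, Finset.mem_union, ← hM] at this
          exact this.2 (Or.inl (mem_uni.2 ⟨R, hR, heR⟩)), hpw⟩)
        (Finset.disjoint_union_left.2 ⟨hdisj, hSB⟩)).1 rfl
      exact this (hle.2 S hleg.1 hScard hSne)
    | breaker M B hfree _ ih =>
      intro Rs hM hcard hpw hdisj
      refine ⟨fun _ hle => ?_, fun h => by simp at h⟩
      obtain ⟨S, hS, hdec, hR⟩ := hstep Rs B hcard (by rw [hM]; exact hfree)
      rw [hM] at hS hR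
      have hSM : Disjoint M S := by
        rw [Finset.disjoint_left]
        intro e he heS
        have := hS.1 heS
        unfold free at this
        rw [Finset.mem_sdiff, Finset.mem_union] at this
        exact this.2 (Or.inl he)
      refine (ih S hS Rs hM hcard hpw (Finset.disjoint_union_right.2 ⟨hdisj, hSM⟩)).2 rfl ⟨?_, ?_⟩
      · have h1 : pot Rs B ≤ pot Rs B * (1 + y) ^ (free M B).card :=
          le_mul_of_one_le_right (hpos _ _) (one_le_pow₀ h1y)
        linarith
      · intro R hRf hRc hRne
        have h2 := hR R hRf hRc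
        have h3 : (free (M ∪ R) (B ∪ S)).card + 1 ≤ (free M B).card := by
          have hsub : free (M ∪ R) (B ∪ S) ⊂ free M B := by
            obtain ⟨e, he⟩ := Finset.nonempty_iff_ne_empty.2 hRne
            have heF := hRf he
            unfold free at heF ⊢
            rw [Finset.ssubset_iff_of_subset]
            · refine ⟨e, ?_, ?_⟩
              · simp only [Finset.mem_sdiff, Finset.mem_union] at heF ⊢
                exact ⟨heF.1, fun h => heF.2 (h.elim Or.inl (fun h => Or.inr (Or.inl h)))⟩
              · simp only [Finset.mem_sdiff, Finset.mem_union]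
                tauto
            · intro e' he'
              simp only [Finset.mem_sdiff, Finset.mem_union] at he' ⊢
              tauto
          exact Finset.card_lt_card hsub
        calc pot (R :: Rs) (B ∪ S) * (1 + y) ^ (free (M ∪ R) (B ∪ S)).card
            ≤ ((1 + y) * pot Rs B) * (1 + y) ^ (free (M ∪ R) (B ∪ S)).card :=
              mul_le_mul_of_nonneg_right h2 (pow_nonneg (by linarith) _)
          _ = pot Rs B * (1 + y) ^ ((free (M ∪ R) (B ∪ S)).card + 1) := by ring
          _ ≤ pot Rs B * (1 + y) ^ (free M B).card :=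
              mul_le_mul_of_nonneg_left (pow_le_pow_right₀ h1y h3) (hpos _ _)
          _ ≤ Z := hle
  intro hw
  cases hw with
  | finish _ _ _ hfree hcl =>
    have h1 := hinit ∅ (Finset.empty_subset _) (by simp)
    have h2 := hfin [∅] ∅ (by simp) (by simp) (by simp) (by simpa using hcl)
    have h3 : pot [∅] ∅ ≤ pot [∅] ∅ * (1 + y) ^ (edges n).card :=
      le_mul_of_one_le_right (hpos _ _) (one_le_pow₀ h1y)
    linarith
  | maker _ _ S hfree hleg hw =>
    have hScard : S.card ≤ m := by rw [hleg.2]; exact min_le_left _ _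
    have hSe : S ⊆ edges n := by
      intro e he
      have := hleg.1 he
      unfold free at this
      exact (Finset.mem_sdiff.1 this).1
    refine (key false (∅ ∪ S) ∅ hw [S] (by simp) (by simpa using hScard) (by simp)
      (by simp)).1 rfl ?_
    refine le_trans ?_ (hinit S hSe hScard)
    refine mul_le_mul_of_nonneg_left (pow_le_pow_right₀ h1y (Finset.card_le_card ?_)) (hpos _ _)
    unfold free
    exact Finset.sdiff_subset

end Pool.Agent.Helper65.CliqueGame
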