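import Pool.Agent.Helper65.Clique.Game

/-!
# The potential with growing structures
-/

set_option autoImplicit false

namespace Pool.Agent.Helper65.CliqueGame

open scoped Classical

/-! ### Abstract greedy step -/

section abstract_step

variable {σ E : Type} [Fintype σ] [DecidableEq E] (μ : σ → ℝ) (F : σ → Finset E)

/-- total weight of the living structures -/
noncomputable def Phi (B : Finset E) : ℝ := ∑ s, if Disjoint (F s) B then μ s else 0

/-- total weight of the living structures containing `e` -/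
noncomputable def Phie (B : Finset E) (e : E) : ℝ :=
  ∑ s, if Disjoint (F s) B ∧ e ∈ F s then μ s else 0

variable {μ}

theorem Phi_nonneg (hμ : ∀ s, 0 ≤ μ s) (B : Finset E) : 0 ≤ Phi μ F B :=
  Finset.sum_nonneg fun s _ => by split_ifs <;> simp [hμ s]

theorem Phie_nonneg (hμ : ∀ s, 0 ≤ μ s) (B : Finset E) (e : E) : 0 ≤ Phie μ F B e :=
  Finset.sum_nonneg fun s _ => by split_ifs <;> simp [hμ s]

theorem Phi_anti (hμ : ∀ s, 0 ≤ μ s) {B B' : Finset E} (h : B ⊆ B') : Phi μ F B' ≤ Phi μ F B := by
  apply Finset.sum_le_sum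
  intro s _
  by_cases h1 : Disjoint (F s) B'
  · have h2 : Disjoint (F s) B := Finset.disjoint_of_subset_right h h1
    simp [h1, h2]
  · simp only [h1, if_false]
    split_ifs <;> simp [hμ s]

theorem Phie_anti (hμ : ∀ s, 0 ≤ μ s) {B B' : Finset E} (h : B ⊆ B') (e : E) :
    Phie μ F B' e ≤ Phie μ F B e := by
  apply Finset.sum_le_sum
  intro s _
  by_cases h1 : Disjoint (F s) B'
  · have h2 : Disjoint (F s) B := Finset.disjoint_of_subset_right h h1
    simp [h1, h2]
  · simp only [h1, false_and, if_false]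
    split_ifs <;> simp [hμ s]

theorem Phi_insert (B : Finset E) (e : E) : Phi μ F (insert e B) = Phi μ F B - Phie μ F B e := by
  unfold Phi Phie
  rw [← Finset.sum_sub_distrib]
  apply Finset.sum_congr rfl
  intro s _
  by_cases h1 : e ∈ F s <;> by_cases h2 : Disjoint (F s) B <;>
    simp [Finset.disjoint_insert_right, h1, h2]

theorem greedy (hμ : ∀ s, 0 ≤ μ s) (B Fr : Finset E) (k : ℕ) (hk : k ≤ Fr.card) :
    ∃ S, S ⊆ Fr ∧ S.card = k ∧
      ∀ e ∈ Fr \ S, (k : ℝ) * Phie μ F (B ∪ S) e ≤ Phi μ F B - Phi μ F (B ∪ S) := by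
  induction k with
  | zero => exact ⟨∅, Finset.empty_subset _, rfl, fun e _ => by simp⟩
  | succ k ih =>
    obtain ⟨S, hS, hc, hd⟩ := ih (by omega)
    have hne : (Fr \ S).Nonempty := by
      rw [← Finset.card_pos, Finset.card_sdiff_of_subset hS]
      omega
    obtain ⟨f, hf, hmax⟩ := Finset.exists_max_image (Fr \ S) (fun e => Phie μ F (B ∪ S) e) hne
    have hf' := Finset.mem_sdiff.1 hf
    refine ⟨insert f S, Finset.insert_subset hf'.1 hS, by
      rw [Finset.card_insert_of_notMem hf'.2, hc], ?_⟩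
    intro e he
    have he' : e ∈ Fr \ S := by
      rw [Finset.mem_sdiff, Finset.mem_insert] at he
      exact Finset.mem_sdiff.2 ⟨he.1, fun h => he.2 (Or.inr h)⟩
    have hBi : B ∪ insert f S = insert f (B ∪ S) := Finset.union_insert _ _ _
    rw [hBi, Phi_insert]
    have h1 : Phie μ F (insert f (B ∪ S)) e ≤ Phie μ F (B ∪ S) e :=
      Phie_anti F hμ (Finset.subset_insert _ _) e
    have h2 := hd e he'
    have h3 : Phie μ F (B ∪ S) e ≤ Phie μ F (B ∪ S) f := hmax e he'
    have h4 : (k : ℝ) * Phie μ F (insert f (B ∪ S)) e ≤ (k : ℝ) * Phie μ F (B ∪ S) e :=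
      mul_le_mul_of_nonneg_left h1 (Nat.cast_nonneg k)
    push_cast
    linarith

theorem gain (B R : Finset E) :
    Phi (fun s => μ s * (1 + ((R ∩ F s).card : ℝ))) F B = Phi μ F B + ∑ e ∈ R, Phie μ F B e := by
  unfold Phi Phie
  rw [Finset.sum_comm, ← Finset.sum_add_distrib]
  apply Finset.sum_congr rfl
  intro s _
  by_cases h2 : Disjoint (F s) B
  · simp only [h2, if_true, true_and]
    rw [← Finset.sum_filter, Finset.sum_const, Finset.filter_mem_eq_inter, nsmul_eq_mul]
    ring
  · simp [h2]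

theorem round (hμ : ∀ s, 0 ≤ μ s) (B Fr : Finset E) {m : ℕ} (hm : 1 ≤ m) :
    ∃ S, S ⊆ Fr ∧ S.card = min m Fr.card ∧
      ∀ R, R ⊆ Fr \ S → R.card ≤ m →
        Phi (fun s => μ s * (1 + ((R ∩ F s).card : ℝ))) F (B ∪ S) ≤ Phi μ F B := by
  obtain ⟨S, hS, hc, hd⟩ := greedy F hμ B Fr (min m Fr.card) (min_le_right _ _)
  refine ⟨S, hS, hc, fun R hR hRm => ?_⟩
  rw [gain]
  rcases le_or_gt m Fr.card with h | h
  · rw [min_eq_left h] at hd hc
    have hm0 : (0 : ℝ) < m := by exact_mod_cast hm
    have h0 : 0 ≤ Phi μ F B - Phi μ F (B ∪ S) :=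
      sub_nonneg.2 (Phi_anti F hμ Finset.subset_union_left)
    have h1 : ∑ e ∈ R, Phie μ F (B ∪ S) e ≤ ∑ e ∈ R, (Phi μ F B - Phi μ F (B ∪ S)) / m := by
      apply Finset.sum_le_sum
      intro e he
      rw [le_div_iff₀ hm0, mul_comm]
      exact hd e (hR he)
    rw [Finset.sum_const, nsmul_eq_mul] at h1
    have h2 : (R.card : ℝ) * ((Phi μ F B - Phi μ F (B ∪ S)) / m) ≤
        (m : ℝ) * ((Phi μ F B - Phi μ F (B ∪ S)) / m) :=
      mul_le_mul_of_nonneg_right (by exact_mod_cast hRm) (div_nonneg h0 hm0.le)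
    rw [mul_div_cancel₀ _ hm0.ne'] at h2
    linarith
  · rw [min_eq_right h.le] at hc
    have hSF : S = Fr := Finset.eq_of_subset_of_card_le hS hc.ge
    have hR0 : R = ∅ := by
      rw [hSF, Finset.sdiff_self] at hR
      exact Finset.subset_empty.1 hR
    rw [hR0, Finset.sum_empty, add_zero]
    exact Phi_anti F hμ Finset.subset_union_left

end abstract_step

/-! ### The structures `(W, U)` -/

variable {n : ℕ}

/-- the vertices touched by a set of edges -/
noncomputable def verts (R : Finset (Sym2 (Fin n))) : Finset (Fin n) :=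
  Finset.univ.filter (fun v => ∃ e ∈ R, v ∈ e)

theorem mem_verts {R : Finset (Sym2 (Fin n))} {v : Fin n} : v ∈ verts R ↔ ∃ e ∈ R, v ∈ e := by
  simp [verts]

theorem card_verts_le (R : Finset (Sym2 (Fin n))) : (verts R).card ≤ 2 * R.card := by
  have h : verts R ⊆ R.biUnion (fun e => e.toFinset) := by
    intro v hv
    obtain ⟨e, he, hve⟩ := mem_verts.1 hv
    exact Finset.mem_biUnion.2 ⟨e, he, Sym2.mem_toFinset.2 hve⟩
  refine (Finset.card_le_card h).trans ?_
  refine Finset.card_biUnion_le.trans ?_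
  rw [mul_comm, ← smul_eq_mul]
  refine Finset.sum_le_card_nsmul _ _ _ fun e _ => ?_
  induction e with
  | _ a b =>
    rw [Sym2.toFinset_mk_eq]
    exact Finset.card_le_two

/-- the edges inside `W ∪ U` which meet `W` -/
noncomputable def FF (W U : Finset (Fin n)) : Finset (Sym2 (Fin n)) :=
  (edges n).filter (fun e => (∀ v ∈ e, v ∈ W ∪ U) ∧ ∃ v ∈ e, v ∈ W)

theorem FF_mono {W U U' : Finset (Fin n)} (h : U ⊆ U') : FF W U ⊆ FF W U' := by
  intro e he
  unfold FF at he ⊢
  rw [Finset.mem_filter] at he ⊢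
  exact ⟨he.1, fun v hv => Finset.union_subset_union_right h (he.2.1 v hv), he.2.2⟩

/-- the weights of the structures `(W, U)` after the given rounds of Maker (latest first) -/
noncomputable def meas (x : ℝ) :
    List (Finset (Sym2 (Fin n))) → Finset (Fin n) → Finset (Fin n) → ℝ
  | [], W, U => if U = ∅ then ((n : ℝ)⁻¹) ^ W.card else 0
  | R :: Rs, W, U => meas x Rs W U * (1 + ((R ∩ FF W U).card : ℝ)) +
      x * ∑ U' : Finset (Fin n), ∑ S ∈ (verts R).powerset,
        if U' ∪ S = U then meas x Rs W U' * (1 + ((R ∩ FF W U').card : ℝ)) else 0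

theorem meas_nonneg {x : ℝ} (hx : 0 ≤ x) (Rs : List (Finset (Sym2 (Fin n)))) :
    ∀ W U : Finset (Fin n), 0 ≤ meas x Rs W U := by
  induction Rs with
  | nil =>
    intro W U
    unfold meas
    split_ifs
    · positivity
    · exact le_rfl
  | cons R Rs ih =>
    intro W U
    unfold meas
    refine add_nonneg (mul_nonneg (ih W U) (by positivity)) (mul_nonneg hx ?_)
    refine Finset.sum_nonneg fun U' _ => Finset.sum_nonneg fun S _ => ?_
    split_ifs
    · exact mul_nonneg (ih W U') (by positivity)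
    · exact le_rfl

/-- the potential -/
noncomputable def pot (x : ℝ) (Rs : List (Finset (Sym2 (Fin n)))) (B : Finset (Sym2 (Fin n))) : ℝ :=
  Phi (σ := Finset (Fin n) × Finset (Fin n)) (fun s => meas x Rs s.1 s.2) (fun s => FF s.1 s.2) B

theorem pot_nonneg {x : ℝ} (hx : 0 ≤ x) (Rs : List (Finset (Sym2 (Fin n))))
    (B : Finset (Sym2 (Fin n))) : 0 ≤ pot x Rs B :=
  Phi_nonneg (σ := Finset (Fin n) × Finset (Fin n)) (μ := fun s => meas x Rs s.1 s.2)
    (fun s => FF s.1 s.2) (fun s => meas_nonneg hx Rs s.1 s.2) B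

/-- adding vertices increases the potential only a little -/
theorem pot_cons_le {x : ℝ} (hx : 0 ≤ x) (Rs : List (Finset (Sym2 (Fin n))))
    (R B : Finset (Sym2 (Fin n))) {m : ℕ} (hR : R.card ≤ m) :
    pot x (R :: Rs) B ≤ (1 + x * 4 ^ m) *
      Phi (σ := Finset (Fin n) × Finset (Fin n))
        (fun s => meas x Rs s.1 s.2 * (1 + ((R ∩ FF s.1 s.2).card : ℝ)))
        (fun s => FF s.1 s.2) B := by
  set up : Finset (Fin n) → Finset (Fin n) → ℝ :=
    fun W U => meas x Rs W U * (1 + ((R ∩ FF W U).card : ℝ)) with hup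
  have hup0 : ∀ W U, 0 ≤ up W U := fun W U => mul_nonneg (meas_nonneg hx Rs W U) (by positivity)
  have e1 : pot x (R :: Rs) B = Phi (σ := Finset (Fin n) × Finset (Fin n))
      (fun s => up s.1 s.2) (fun s => FF s.1 s.2) B + x * ∑ W : Finset (Fin n),
        ∑ U : Finset (Fin n), if Disjoint (FF W U) B then
          ∑ U' : Finset (Fin n), ∑ S ∈ (verts R).powerset, (if U' ∪ S = U then up W U' else 0)
          else 0 := by
    unfold pot Phi
    rw [Fintype.sum_prod_type, Fintype.sum_prod_type, Finset.mul_sum, ← Finset.sum_add_distrib]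
    apply Finset.sum_congr rfl
    intro W _
    rw [Finset.mul_sum, ← Finset.sum_add_distrib]
    apply Finset.sum_congr rfl
    intro U _
    by_cases h : Disjoint (FF W U) B
    · simp only [h, if_true]
      rfl
    · simp [h]
  have e2 : ∀ W : Finset (Fin n), (∑ U : Finset (Fin n), if Disjoint (FF W U) B then
          ∑ U' : Finset (Fin n), ∑ S ∈ (verts R).powerset, (if U' ∪ S = U then up W U' else 0)
          else 0) ≤ 4 ^ m * ∑ U' : Finset (Fin n), if Disjoint (FF W U') B then up W U' else 0 := by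
    intro W
    have e3 : (∑ U : Finset (Fin n), if Disjoint (FF W U) B then
          ∑ U' : Finset (Fin n), ∑ S ∈ (verts R).powerset, (if U' ∪ S = U then up W U' else 0)
          else 0) = ∑ U' : Finset (Fin n), ∑ S ∈ (verts R).powerset,
          if Disjoint (FF W (U' ∪ S)) B then up W U' else 0 := by
      have e4 : ∀ U : Finset (Fin n), (if Disjoint (FF W U) B then
          ∑ U' : Finset (Fin n), ∑ S ∈ (verts R).powerset, (if U' ∪ S = U then up W U' else 0)
          else 0) = ∑ U' : Finset (Fin n), ∑ S ∈ (verts R).powerset,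
          if U' ∪ S = U then (if Disjoint (FF W U) B then up W U' else 0) else 0 := by
        intro U
        by_cases h : Disjoint (FF W U) B
        · simp [h]
        · simp [h]
      simp only [e4]
      rw [Finset.sum_comm]
      apply Finset.sum_congr rfl
      intro U' _
      rw [Finset.sum_comm]
      apply Finset.sum_congr rfl
      intro S _
      rw [Finset.sum_ite_eq]
      simp
    rw [e3, Finset.mul_sum]
    apply Finset.sum_le_sum
    intro U' _
    have h4 : (2 : ℝ) ^ (verts R).card ≤ 4 ^ m := by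
      have h5 : (verts R).card ≤ 2 * m := (card_verts_le R).trans (by omega)
      calc (2 : ℝ) ^ (verts R).card ≤ 2 ^ (2 * m) := pow_le_pow_right₀ (by norm_num) h5
        _ = 4 ^ m := by rw [pow_mul]; norm_num
    by_cases h : Disjoint (FF W U') B
    · simp only [h, if_true]
      calc (∑ S ∈ (verts R).powerset, if Disjoint (FF W (U' ∪ S)) B then up W U' else 0)
          ≤ ∑ S ∈ (verts R).powerset, up W U' := by
            apply Finset.sum_le_sum
            intro S _
            split_ifs
            · exact le_rfl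
            · exact hup0 W U'
        _ = 2 ^ (verts R).card * up W U' := by
            rw [Finset.sum_const, Finset.card_powerset, nsmul_eq_mul]
            push_cast
            rfl
        _ ≤ 4 ^ m * up W U' := mul_le_mul_of_nonneg_right h4 (hup0 W U')
    · have h6 : ∀ S : Finset (Fin n), ¬ Disjoint (FF W (U' ∪ S)) B := fun S h7 =>
        h (Finset.disjoint_of_subset_left (FF_mono Finset.subset_union_left) h7)
      simp [h, h6]
  rw [e1, add_mul, one_mul]
  refine add_le_add_right ?_ _
  rw [mul_assoc]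
  refine mul_le_mul_of_nonneg_left ?_ hx
  unfold Phi
  rw [Fintype.sum_prod_type, Finset.mul_sum]
  exact Finset.sum_le_sum fun W _ => e2 W

/-- the step property of the potential -/
theorem pot_step {x : ℝ} (hx : 0 ≤ x) {m : ℕ} (hm : 1 ≤ m) (Rs : List (Finset (Sym2 (Fin n))))
    (B : Finset (Sym2 (Fin n))) :
    ∃ S, Legal m (uni Rs) B S ∧ pot x Rs (B ∪ S) ≤ pot x Rs B ∧
        ∀ R, R ⊆ free (uni Rs) (B ∪ S) → R.card ≤ m →
          pot x (R :: Rs) (B ∪ S) ≤ (1 + x * 4 ^ m) * pot x Rs B := by
  obtain ⟨S, hS, hc, hR⟩ := round (σ := Finset (Fin n) × Finset (Fin n))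
    (μ := fun s => meas x Rs s.1 s.2) (fun s => FF s.1 s.2)
    (fun s => meas_nonneg hx Rs s.1 s.2) B (free (uni Rs) B) hm
  refine ⟨S, ⟨hS, hc⟩, Phi_anti (σ := Finset (Fin n) × Finset (Fin n))
    (μ := fun s => meas x Rs s.1 s.2) (fun s => FF s.1 s.2)
    (fun s => meas_nonneg hx Rs s.1 s.2) Finset.subset_union_left, fun R hRf hRm => ?_⟩
  refine (pot_cons_le hx Rs R (B ∪ S) hRm).trans ?_
  refine mul_le_mul_of_nonneg_left (hR R ?_ hRm) (by positivity)
  intro e he
  have := hRf he
  unfold free at this ⊢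
  simp only [Finset.mem_sdiff, Finset.mem_union] at this ⊢
  tauto

/-- the potential after the first round of Maker -/
theorem pot_init {x : ℝ} (hx : 0 ≤ x) {m : ℕ} (R : Finset (Sym2 (Fin n))) (hR : R.card ≤ m) :
    pot x [R] ∅ ≤ (1 + x * 4 ^ m) * ((1 + m) * (1 + (n : ℝ)⁻¹) ^ n) := by
  refine (pot_cons_le hx [] R ∅ hR).trans ?_
  refine mul_le_mul_of_nonneg_left ?_ (by positivity)
  unfold Phi
  have e1 : ∀ s : Finset (Fin n) × Finset (Fin n),
      (if Disjoint (FF s.1 s.2) (∅ : Finset (Sym2 (Fin n))) then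
        meas x [] s.1 s.2 * (1 + ((R ∩ FF s.1 s.2).card : ℝ)) else 0) ≤
      (1 + m) * meas x [] s.1 s.2 := by
    intro s
    rw [if_pos (Finset.disjoint_empty_right _), mul_comm]
    refine mul_le_mul_of_nonneg_right ?_ (meas_nonneg hx [] s.1 s.2)
    have : (R ∩ FF s.1 s.2).card ≤ m := (Finset.card_le_card Finset.inter_subset_left).trans hR
    have : ((R ∩ FF s.1 s.2).card : ℝ) ≤ m := by exact_mod_cast this
    linarith
  refine (Finset.sum_le_sum fun s _ => e1 s).trans ?_
  rw [← Finset.mul_sum]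
  refine mul_le_mul_of_nonneg_left ?_ (by positivity)
  rw [Fintype.sum_prod_type]
  have e2 : ∀ W : Finset (Fin n), ∑ U : Finset (Fin n), meas x [] W U = ((n : ℝ)⁻¹) ^ W.card := by
    intro W
    unfold meas
    rw [Finset.sum_ite_eq']
    simp
  simp only [e2]
  have e3 := Finset.sum_pow_mul_eq_add_pow ((n : ℝ)⁻¹) 1 (Finset.univ : Finset (Fin n))
  simp only [one_pow, mul_one, Finset.powerset_univ, Finset.card_univ, Fintype.card_fin] at e3
  rw [e3, add_comm]

/-! ### Lower bound for the weights -/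

/-- the set of added vertices, for rounds with flags (latest first) -/
noncomputable def cod (A : Finset (Fin n)) : List (Finset (Sym2 (Fin n)) × Bool) → Finset (Fin n)
  | [] => ∅
  | (R, b) :: l => if b then cod A l ∪ (verts R ∩ A) else cod A l

/-- the weight of a flagged sequence of rounds -/
noncomputable def wt (x : ℝ) (A W : Finset (Fin n)) : List (Finset (Sym2 (Fin n)) × Bool) → ℝ
  | [] => 1
  | (R, b) :: l => wt x A W l * (1 + ((R ∩ FF W (cod A l)).card : ℝ)) * (if b then x else 1)

theorem wt_nonneg {x : ℝ} (hx : 0 ≤ x) (A W : Finset (Fin n))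
    (l : List (Finset (Sym2 (Fin n)) × Bool)) : 0 ≤ wt x A W l := by
  induction l with
  | nil => simp [wt]
  | cons a l ih =>
    obtain ⟨R, b⟩ := a
    unfold wt
    refine mul_nonneg (mul_nonneg ih (by positivity)) ?_
    split_ifs
    · exact hx
    · exact zero_le_one

theorem meas_lower {x : ℝ} (hx : 0 ≤ x) (A W : Finset (Fin n))
    (l : List (Finset (Sym2 (Fin n)) × Bool)) :
    ((n : ℝ)⁻¹) ^ W.card * wt x A W l ≤ meas x (l.map Prod.fst) W (cod A l) := by
  induction l with
  | nil => simp [wt, meas, cod]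
  | cons a l ih =>
    obtain ⟨R, b⟩ := a
    rw [List.map_cons]
    have hstep : ((n : ℝ)⁻¹) ^ W.card * (wt x A W l * (1 + ((R ∩ FF W (cod A l)).card : ℝ))) ≤
        meas x (l.map Prod.fst) W (cod A l) * (1 + ((R ∩ FF W (cod A l)).card : ℝ)) := by
      rw [← mul_assoc]
      exact mul_le_mul_of_nonneg_right ih (by positivity)
    have hnn : ∀ U', 0 ≤ meas x (l.map Prod.fst) W U' * (1 + ((R ∩ FF W U').card : ℝ)) :=
      fun U' => mul_nonneg (meas_nonneg hx _ W U') (by positivity)
    unfold wt meas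
    cases b with
    | false =>
      simp only [cod, Bool.false_eq_true, if_false, mul_one]
      refine hstep.trans (le_add_of_nonneg_right (mul_nonneg hx ?_))
      refine Finset.sum_nonneg fun U' _ => Finset.sum_nonneg fun S _ => ?_
      split_ifs
      · exact hnn U'
      · exact le_rfl
    | true =>
      simp only [cod, if_true]
      have h1 : meas x (l.map Prod.fst) W (cod A l) * (1 + ((R ∩ FF W (cod A l)).card : ℝ)) ≤
          ∑ U' : Finset (Fin n), ∑ S ∈ (verts R).powerset,
            if U' ∪ S = cod A l ∪ (verts R ∩ A) then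
              meas x (l.map Prod.fst) W U' * (1 + ((R ∩ FF W U').card : ℝ)) else 0 := by
        have h2 : ∀ U' : Finset (Fin n), 0 ≤ ∑ S ∈ (verts R).powerset,
            if U' ∪ S = cod A l ∪ (verts R ∩ A) then
              meas x (l.map Prod.fst) W U' * (1 + ((R ∩ FF W U').card : ℝ)) else 0 := fun U' =>
          Finset.sum_nonneg fun S _ => by
            split_ifs
            · exact hnn U'
            · exact le_rfl
        refine le_trans ?_ (Finset.single_le_sum (fun U' _ => h2 U') (Finset.mem_univ (cod A l)))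
        have h3 : verts R ∩ A ∈ (verts R).powerset :=
          Finset.mem_powerset.2 Finset.inter_subset_left
        refine le_trans ?_ (Finset.single_le_sum (fun S _ => ?_) h3)
        · rw [if_pos rfl]
        · split_ifs
          · exact hnn (cod A l)
          · exact le_rfl
      have h4 : 0 ≤ meas x (l.map Prod.fst) W (cod A l ∪ (verts R ∩ A)) *
          (1 + ((R ∩ FF W (cod A l ∪ (verts R ∩ A))).card : ℝ)) := hnn _
      calc ((n : ℝ)⁻¹) ^ W.card * (wt x A W l * (1 + ((R ∩ FF W (cod A l)).card : ℝ)) * x)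
          = x * (((n : ℝ)⁻¹) ^ W.card * (wt x A W l * (1 + ((R ∩ FF W (cod A l)).card : ℝ)))) := by
            ring
        _ ≤ x * _ := mul_le_mul_of_nonneg_left (hstep.trans h1) hx
        _ ≤ _ := le_add_of_nonneg_left h4

end Pool.Agent.Helper65.CliqueGame
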