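import Pool.Agent.Helper65.Clique.Count

/-!
# The upper bound for `q_m(n)`
-/

set_option autoImplicit false

namespace Pool.Agent.Helper65.CliqueGame

open scoped Classical

/-- the numerical contradiction -/
theorem numeric {θ a M ζ L q t D g k N b c : ℝ} (hθ : 0 < θ) (hθ' : θ ≤ 1 / 16) (ha : 0 < a)
    (hM : 1 ≤ M) (hζ : 0 ≤ ζ) (hL : 0 < L) (hq : 1 ≤ q) (hLq : (1 + 8 * θ) * L ≤ a * q)
    (hk0 : 0 ≤ k) (hN0 : 0 ≤ N)
    (hg1 : (θ ^ 4)⁻¹ ≤ g) (hg2 : g ≤ 2 * (θ ^ 4)⁻¹) (hD1 : θ ^ 2 * q ≤ D)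
    (hD2 : D ≤ θ ^ 2 * q + 1)
    (H1 : k * (g * D) ≤ q ^ 2) (H2 : N ≤ ζ + q * L) (H3 : a * c ≤ ζ + t * L + k * (2 * L + 2 * M))
    (H4 : b ≤ q * (D + M) + N * g ^ 2 + M * k)
    (H5 : q * (q - 1) / 2 ≤ c + b + (q - t) * (q - t - 1) / 2)
    (ht1 : t ≤ θ * q) (ht2 : θ * q - 1 ≤ t) (ht0 : 0 ≤ t)
    (H7 : a * (4 * (θ ^ 8)⁻¹) ≤ θ ^ 2)
    (H8 : (3 + 2 * M + 2 * M / a) + (4 * ζ * (θ ^ 8)⁻¹ + ζ / a) < θ ^ 2 * q) : False := by
  have hq0 : 0 < q := by linarith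
  have hθ4 : 0 < θ ^ 4 := by positivity
  have hθ8 : 0 < θ ^ 8 := by positivity
  have hi4 : θ ^ 4 * (θ ^ 4)⁻¹ = 1 := mul_inv_cancel₀ hθ4.ne'
  have hi8 : (θ ^ 4)⁻¹ ^ 2 = (θ ^ 8)⁻¹ := by rw [inv_pow, ← pow_mul]
  have hg0 : 0 < g := lt_of_lt_of_le (inv_pos.2 hθ4) hg1
  -- k ≤ θ² q
  have hk : k ≤ θ ^ 2 * q := by
    have h1 : (θ ^ 4)⁻¹ * (θ ^ 2 * q) ≤ g * D :=
      mul_le_mul hg1 hD1 (by positivity) hg0.le
    have h2 : (θ ^ 4)⁻¹ * (θ ^ 2 * q) = (θ ^ 2)⁻¹ * q := by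
      field_simp
    rw [h2] at h1
    have h3 : k * ((θ ^ 2)⁻¹ * q) ≤ q ^ 2 := (mul_le_mul_of_nonneg_left h1 hk0).trans H1
    have h4 : k * (θ ^ 2)⁻¹ ≤ q := by
      have : (k * (θ ^ 2)⁻¹) * q ≤ q * q := by nlinarith
      exact le_of_mul_le_mul_right this hq0
    have h5 : 0 < θ ^ 2 := by positivity
    rw [← div_eq_mul_inv, div_le_iff₀ h5] at h4
    linarith
  -- g² bound
  have hg2' : g ^ 2 ≤ 4 * (θ ^ 8)⁻¹ := by
    have h1 : g ^ 2 ≤ (2 * (θ ^ 4)⁻¹) ^ 2 := pow_le_pow_left₀ hg0.le hg2 2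
    rw [mul_pow, hi8] at h1
    linarith
  -- L ≤ a q
  have hLa : L ≤ a * q := by nlinarith
  have hLa2 : L * (1 + 8 * θ) / a ≤ q := by
    rw [div_le_iff₀ ha]
    linarith
  -- N g²
  have hNg : N * g ^ 2 ≤ 4 * ζ * (θ ^ 8)⁻¹ + θ ^ 2 * q ^ 2 := by
    have h1 : N * g ^ 2 ≤ (ζ + q * L) * (4 * (θ ^ 8)⁻¹) :=
      mul_le_mul H2 hg2' (by positivity) (by positivity)
    have h2 : q * L * (4 * (θ ^ 8)⁻¹) ≤ q * (a * q) * (4 * (θ ^ 8)⁻¹) :=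
      mul_le_mul_of_nonneg_right (mul_le_mul_of_nonneg_left hLa hq0.le) (by positivity)
    have h3 : q * (a * q) * (4 * (θ ^ 8)⁻¹) = q ^ 2 * (a * (4 * (θ ^ 8)⁻¹)) := by ring
    have h4 : q ^ 2 * (a * (4 * (θ ^ 8)⁻¹)) ≤ q ^ 2 * θ ^ 2 :=
      mul_le_mul_of_nonneg_left H7 (by positivity)
    nlinarith
  -- b
  have hb : b ≤ 2 * θ ^ 2 * q ^ 2 + q * (1 + M + M * θ ^ 2) + 4 * ζ * (θ ^ 8)⁻¹ := by
    have h1 : q * (D + M) ≤ q * (θ ^ 2 * q + 1 + M) :=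
      mul_le_mul_of_nonneg_left (by linarith) hq0.le
    have h2 : M * k ≤ M * (θ ^ 2 * q) := mul_le_mul_of_nonneg_left hk (by linarith)
    nlinarith
  -- lower bound of c
  have hc1 : q * t - t * (t + 1) / 2 ≤ c + b := by
    have : q * (q - 1) / 2 - (q - t) * (q - t - 1) / 2 = q * t - t * (t + 1) / 2 := by ring
    linarith
  have hc2 : q * (θ * q - 1) - θ * q * (θ * q + 1) / 2 ≤ q * t - t * (t + 1) / 2 := by
    have h1 : q * (θ * q - 1) ≤ q * t := mul_le_mul_of_nonneg_left ht2 hq0.le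
    have h2 : t * (t + 1) ≤ θ * q * (θ * q + 1) :=
      mul_le_mul ht1 (by linarith) (by linarith) (by positivity)
    linarith
  -- upper bound of c
  have hc3 : c ≤ ζ / a + (θ * q + 2 * θ ^ 2 * q) * (q / (1 + 8 * θ)) + 2 * M * θ ^ 2 * q / a := by
    have h0 : c ≤ (ζ + t * L + k * (2 * L + 2 * M)) / a := by
      rw [le_div_iff₀ ha]; linarith
    have h1 : L / a ≤ q / (1 + 8 * θ) := by
      rw [div_le_div_iff₀ ha (by linarith)]
      linarith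
    have h2 : (ζ + t * L + k * (2 * L + 2 * M)) / a =
        ζ / a + (t + 2 * k) * (L / a) + 2 * M * k / a := by
      field_simp
      ring
    have h3 : (t + 2 * k) * (L / a) ≤ (θ * q + 2 * θ ^ 2 * q) * (q / (1 + 8 * θ)) := by
      refine mul_le_mul (by linarith) h1 (by positivity) (by positivity)
    have h4 : 2 * M * k / a ≤ 2 * M * θ ^ 2 * q / a := by
      apply div_le_div_of_nonneg_right _ ha.le
      have : M * k ≤ M * (θ ^ 2 * q) := mul_le_mul_of_nonneg_left hk (by linarith)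
      linarith
    rw [h2] at h0
    linarith
  -- the margin
  have hmargin : (θ * q + 2 * θ ^ 2 * q) * (q / (1 + 8 * θ)) + θ ^ 2 * q ^ 2 ≤
      (θ - 5 / 2 * θ ^ 2) * q ^ 2 := by
    have h1 : (θ * q + 2 * θ ^ 2 * q) * (q / (1 + 8 * θ)) = (θ + 2 * θ ^ 2) / (1 + 8 * θ) * q ^ 2 := by
      field_simp
    have h2 : (θ + 2 * θ ^ 2) / (1 + 8 * θ) + θ ^ 2 ≤ θ - 5 / 2 * θ ^ 2 := by
      rw [← le_sub_iff_add_le, div_le_iff₀ (by linarith)]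
      nlinarith [mul_pos hθ hθ, mul_nonneg (mul_pos hθ hθ).le (sub_nonneg.2 hθ')]
    rw [h1]
    nlinarith [sq_nonneg q]
  have hθ2 : θ ^ 2 ≤ 1 := by nlinarith
  have hθM : M * θ ^ 2 ≤ M := by nlinarith
  have hMa : 2 * M * θ ^ 2 * q / a ≤ q * (2 * M / a) := by
    have h1 : 2 * M * θ ^ 2 * q / a = (θ ^ 2) * (q * (2 * M / a)) := by ring
    rw [h1]
    have h2 : 0 ≤ q * (2 * M / a) := by positivity
    nlinarith
  have hfin : θ ^ 2 * q ^ 2 ≤ q * (3 + 2 * M + 2 * M / a) + (4 * ζ * (θ ^ 8)⁻¹ + ζ / a) := by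
    nlinarith
  have hK2 : 0 ≤ 4 * ζ * (θ ^ 8)⁻¹ + ζ / a := by positivity
  have h9 : q * (3 + 2 * M + 2 * M / a) + (4 * ζ * (θ ^ 8)⁻¹ + ζ / a) ≤
      q * ((3 + 2 * M + 2 * M / a) + (4 * ζ * (θ ^ 8)⁻¹ + ζ / a)) := by
    rw [mul_add]
    have : (4 * ζ * (θ ^ 8)⁻¹ + ζ / a) ≤ q * (4 * ζ * (θ ^ 8)⁻¹ + ζ / a) :=
      le_mul_of_one_le_left hK2 hq
    linarith
  have h10 : q * ((3 + 2 * M + 2 * M / a) + (4 * ζ * (θ ^ 8)⁻¹ + ζ / a)) < q * (θ ^ 2 * q) :=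
    mul_lt_mul_of_pos_left H8 hq0
  nlinarith

/-- the potential argument: parameters `D`, `g`, `t` are free -/
theorem exists_ineq {n m q : ℕ} (hm : 1 ≤ m) (hn : 1 ≤ n) (hw : MakerWins n m q true ∅ ∅) :
    ∀ D g t : ℕ, 1 ≤ D → t ≤ q →
    ∃ k N b c : ℕ, k * (g * D) ≤ q ^ 2 ∧ (2 : ℝ) ^ N ≤ (9 * (1 + m)) * (n : ℝ) ^ q ∧
      (((n : ℝ) ^ 2 * 4 ^ m)⁻¹) ^ k * ((m : ℝ) + 1) ^ ((c : ℝ) / m) ≤
        (9 * (1 + m)) * (n : ℝ) ^ t ∧
      b ≤ q * (D + m) + N * g ^ 2 + m * k ∧ q.choose 2 ≤ c + b + (q - t).choose 2 := by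
  intro D g t hD ht
  by_contra hcon
  set x : ℝ := ((n : ℝ) ^ 2 * 4 ^ m)⁻¹ with hx
  have hn0 : (0 : ℝ) < n := by exact_mod_cast hn
  have hx0 : 0 ≤ x := by positivity
  have hxy : x * 4 ^ m = ((n : ℝ) ^ 2)⁻¹ := by
    rw [hx, mul_inv]
    field_simp
  have hcard : (edges n).card + 1 ≤ n ^ 2 := by
    have h1 : (edges n).card = n.choose 2 := by
      have h2 : edges n = inn (Finset.univ : Finset (Fin n)) := by
        ext e
        simp [mem_inn, edges]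
      rw [h2, card_inn, Finset.card_univ, Fintype.card_fin]
    rw [h1]
    have h3 : n.choose 2 * 2 = n * (n - 1) := by
      rw [Nat.choose_two_right]
      exact Nat.div_mul_cancel (Nat.even_mul_pred_self n).two_dvd
    have h4 : n * (n - 1) + n = n ^ 2 := by
      obtain ⟨n', rfl⟩ : ∃ n', n = n' + 1 := ⟨n - 1, by omega⟩
      simp only [Nat.add_sub_cancel]
      ring
    nlinarith
  have hexp : ∀ k : ℕ, 1 ≤ k → (1 + (k : ℝ)⁻¹) ^ k ≤ 3 := by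
    intro k hk
    have hk0 : (0 : ℝ) < k := by exact_mod_cast hk
    have h1 : 1 + (k : ℝ)⁻¹ ≤ Real.exp ((k : ℝ)⁻¹) := by
      have := Real.add_one_le_exp ((k : ℝ)⁻¹)
      linarith
    calc (1 + (k : ℝ)⁻¹) ^ k ≤ (Real.exp ((k : ℝ)⁻¹)) ^ k :=
          pow_le_pow_left₀ (by positivity) h1 k
      _ = Real.exp 1 := by
          rw [← Real.exp_nat_mul, mul_inv_cancel₀ hk0.ne']
      _ ≤ 3 := by
          have := Real.exp_one_lt_d9
          linarith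
  refine breaker_wins (n := n) (m := m) (q := q) hm (fun Rs B => pot x Rs B) (x * 4 ^ m)
    (9 * (1 + m)) (by positivity) (fun Rs B => pot_nonneg hx0 Rs B) ?_ ?_ ?_ hw
  · intro Rs B _ _
    exact pot_step hx0 hm Rs B
  · intro R _ hRc
    have h1 := pot_init (n := n) hx0 R hRc
    calc pot x [R] ∅ * (1 + x * 4 ^ m) ^ (edges n).card
        ≤ ((1 + x * 4 ^ m) * ((1 + m) * (1 + (n : ℝ)⁻¹) ^ n)) *
          (1 + x * 4 ^ m) ^ (edges n).card := mul_le_mul_of_nonneg_right h1 (by positivity)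
      _ = (1 + m) * (1 + (n : ℝ)⁻¹) ^ n * (1 + x * 4 ^ m) ^ ((edges n).card + 1) := by ring
      _ ≤ (1 + m) * 3 * 3 := by
          refine mul_le_mul (mul_le_mul_of_nonneg_left (hexp n hn) (by positivity)) ?_
            (by positivity) (by positivity)
          rw [hxy]
          calc (1 + ((n : ℝ) ^ 2)⁻¹) ^ ((edges n).card + 1)
              ≤ (1 + ((n : ℝ) ^ 2)⁻¹) ^ (n ^ 2) :=
                pow_le_pow_right₀ (le_add_of_nonneg_right (by positivity)) hcard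
            _ ≤ 3 := by
                have := hexp (n ^ 2) (Nat.one_le_pow _ _ hn)
                push_cast at this
                exact this
      _ = 9 * (1 + m) := by ring
  · intro Rs B hR hpw hB hcl
    by_contra hZ
    rw [not_lt] at hZ
    exact hcon (clique_ineq hx0 hm hn Rs B hR hpw hB hcl hZ D g t hD ht)

end Pool.Agent.Helper65.CliqueGame
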